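import Pool.Agent.Lib.MP_97284c_gt.Defs

/-! Basic lemmas (proved). -/

namespace Pool.Agent.Lib.MP_97284c_gt

theorem cr_self (a : ℂ) : cr a a = 0 := by unfold cr; ring
theorem cr_comm (a b : ℂ) : cr a b = -cr b a := by unfold cr; ring
theorem dt_comm (a b : ℂ) : dt a b = dt b a := by unfold dt; ring
theorem dt_self (a : ℂ) : dt a a = ‖a‖ ^ 2 := by
  rw [← Complex.normSq_eq_norm_sq, Complex.normSq_apply]; rfl
theorem normsq_sub (a b : ℂ) : ‖a - b‖ ^ 2 = ‖a‖ ^ 2 + ‖b‖ ^ 2 - 2 * dt a b := by
  simp only [← dt_self]; unfold dt; simp only [Complex.sub_re, Complex.sub_im]; ring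
theorem normsq_add (a b : ℂ) : ‖a + b‖ ^ 2 = ‖a‖ ^ 2 + ‖b‖ ^ 2 + 2 * dt a b := by
  simp only [← dt_self]; unfold dt; simp only [Complex.add_re, Complex.add_im]; ring
/-- Lagrange identity. -/
theorem cr_sq_add_dt_sq (a b : ℂ) : cr a b ^ 2 + dt a b ^ 2 = ‖a‖ ^ 2 * ‖b‖ ^ 2 := by
  simp only [← dt_self]; unfold dt cr; ring

theorem exp_re (t : ℝ) : (Complex.exp (t * Complex.I)).re = Real.cos t := Complex.exp_ofReal_mul_I_re t
theorem exp_im (t : ℝ) : (Complex.exp (t * Complex.I)).im = Real.sin t := Complex.exp_ofReal_mul_I_im t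

/-- Rotating the second vector. -/
theorem cr_exp_mul (t : ℝ) (a b : ℂ) :
    cr a (Complex.exp (t * Complex.I) * b) = Real.cos t * cr a b + Real.sin t * dt a b := by
  unfold cr dt; simp only [Complex.mul_re, Complex.mul_im, exp_re, exp_im]; ring
theorem dt_exp_mul (t : ℝ) (a b : ℂ) :
    dt a (Complex.exp (t * Complex.I) * b) = Real.cos t * dt a b - Real.sin t * cr a b := by
  unfold cr dt; simp only [Complex.mul_re, Complex.mul_im, exp_re, exp_im]; ring
theorem cr_I_mul (a b : ℂ) : cr (Complex.I * a) b = -dt a b := by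
  unfold cr dt; simp; ring
theorem dt_I_mul (a b : ℂ) : dt (Complex.I * a) b = cr a b := by
  unfold cr dt; simp; ring

theorem orient_eq (a b c : ℂ) : orient a b c = cr a b + cr b c + cr c a := by
  unfold orient cr; simp only [Complex.sub_re, Complex.sub_im]; ring
theorem orient_rot (a b c : ℂ) : orient b c a = orient a b c := by
  simp only [orient_eq]; ring
theorem orient_swap (a b c : ℂ) : orient b a c = -orient a b c := by
  simp only [orient_eq, cr]; ring

/-- Sums of a periodic function over a period do not depend on the starting point: one step. -/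
theorem psum_succ {N : ℕ} (g : ℤ → ℝ) (hg : ∀ k, g (k + N) = g k) :
    ∑ k ∈ Finset.range N, g ((k : ℤ) + 1) = ∑ k ∈ Finset.range N, g k := by
  have h1 := Finset.sum_range_succ (fun k : ℕ => g (k : ℤ)) N
  have h2 := Finset.sum_range_succ' (fun k : ℕ => g (k : ℤ)) N
  have h3 : g ((N : ℕ) : ℤ) = g 0 := by have := hg 0; simpa using this
  simp only [Nat.cast_add, Nat.cast_one, Nat.cast_zero] at h1 h2
  rw [h3] at h1
  linarith

/-- Shift by any integer. -/
theorem psum_shift {N : ℕ} (g : ℤ → ℝ) (hg : ∀ k, g (k + N) = g k) (a : ℤ) :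
    ∑ k ∈ Finset.range N, g ((k : ℤ) + a) = ∑ k ∈ Finset.range N, g k := by
  induction a using Int.induction_on with
  | zero => simp
  | succ i ih =>
    have h := psum_succ (fun k => g (k + i)) (fun k => by
      have := hg (k + i); rw [show k + (N : ℤ) + i = k + i + N by ring]; exact this)
    rw [← ih, ← h]
    refine Finset.sum_congr rfl fun k _ => ?_
    congr 1; ring
  | pred i ih =>
    have h := psum_succ (fun k => g (k + (-(i : ℤ) - 1))) (fun k => by
      have := hg (k + (-(i : ℤ) - 1)); rw [show k + (N : ℤ) + (-(i : ℤ) - 1) = k + (-(i : ℤ) - 1) + N by ring]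
      exact this)
    rw [← ih, ← h]
    refine Finset.sum_congr rfl fun k _ => ?_
    congr 1; ring

/-- Reflection. -/
theorem psum_neg {N : ℕ} (g : ℤ → ℝ) (hg : ∀ k, g (k + N) = g k) :
    ∑ k ∈ Finset.range N, g (-(k : ℤ)) = ∑ k ∈ Finset.range N, g k := by
  rw [← Finset.sum_range_reflect (fun k : ℕ => g (-(k : ℤ))) N]
  rw [← psum_shift g hg (1 - N)]
  refine Finset.sum_congr rfl fun k hk => ?_
  have hk' : k < N := Finset.mem_range.mp hk
  congr 1
  push_cast [Nat.cast_sub (show k ≤ N - 1 by omega), Nat.cast_sub (show 1 ≤ N by omega)]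
  ring

/-- A periodic function is determined by the residue. -/
theorem per_mul {α : Type*} {N : ℕ} (g : ℤ → α) (hg : ∀ k, g (k + N) = g k) (k t : ℤ) :
    g (k + t * N) = g k := by
  induction t using Int.induction_on with
  | zero => simp
  | succ i ih => rw [show k + ((i : ℤ) + 1) * N = (k + i * N) + N by ring, hg, ih]
  | pred i ih =>
    have := hg (k + (-(i : ℤ) - 1) * N)
    rw [show k + (-(i : ℤ) - 1) * N + N = k + -(i : ℤ) * N by ring, ih] at this
    exact this.symm

theorem per_emod {α : Type*} {N : ℕ} (g : ℤ → α) (hg : ∀ k, g (k + N) = g k) (k : ℤ) :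
    g (k % N) = g k := by
  have h := per_mul g hg (k % N) (k / N)
  rw [← h]; congr 1
  have := Int.emod_add_mul_ediv k N
  linarith [mul_comm (N : ℤ) (k / N)]

/-- An index function with unit steps: antiderivative along `ℤ`. -/
theorem exists_antideriv (g : ℤ → ℝ) : ∃ G : ℤ → ℝ, ∀ k, G (k + 1) - G k = g k := by
  refine ⟨fun k => if 0 ≤ k then ∑ j ∈ Finset.range k.toNat, g j
    else -∑ j ∈ Finset.range (-k).toNat, g (-(j : ℤ) - 1), fun k => ?_⟩
  rcases lt_trichotomy k (-1) with h | h | h
  · have h1 : ¬ (0 ≤ k + 1) := by omega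
    have h2 : ¬ (0 ≤ k) := by omega
    simp only [h1, h2, if_false]
    obtain ⟨j, hj⟩ : ∃ j : ℕ, k = -(j : ℤ) - 1 := ⟨(-k - 1).toNat, by omega⟩
    subst hj
    have e1 : (-(-(j : ℤ) - 1 + 1)).toNat = j := by omega
    have e2 : (-(-(j : ℤ) - 1)).toNat = j + 1 := by omega
    rw [e1, e2, Finset.sum_range_succ]; ring
  · subst h; simp
  · have h1 : 0 ≤ k + 1 := by omega
    have h2 : 0 ≤ k := by omega
    simp only [h1, h2, if_true]
    obtain ⟨j, hj⟩ : ∃ j : ℕ, k = (j : ℤ) := ⟨k.toNat, by omega⟩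
    subst hj
    have e1 : ((j : ℤ) + 1).toNat = j + 1 := by omega
    have e2 : ((j : ℤ)).toNat = j := by omega
    rw [e1, e2, Finset.sum_range_succ]; ring

/-- With a periodic increment, the antiderivative grows by the period sum. -/
theorem antideriv_per {N : ℕ} (g : ℤ → ℝ) (hg : ∀ k, g (k + N) = g k) (G : ℤ → ℝ)
    (hG : ∀ k, G (k + 1) - G k = g k) (k : ℤ) :
    G (k + N) - G k = ∑ j ∈ Finset.range N, g j := by
  rw [← psum_shift g hg k]
  have : ∀ M : ℕ, G (k + M) - G k = ∑ j ∈ Finset.range M, g ((j : ℤ) + k) := by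
    intro M
    induction M with
    | zero => simp
    | succ M ih =>
      rw [Finset.sum_range_succ, ← ih]
      have := hG (k + M)
      rw [show (M : ℤ) + k = k + M by ring, ← this]
      push_cast
      rw [show k + ((M : ℤ) + 1) = k + M + 1 by ring]; ring
  exact this N

end Pool.Agent.Lib.MP_97284c_gt
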