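import Mathlib

/-!
# Largest small polygons with an even number of vertices: definitions (MP_97284c_gt)

Everything lives in `ℂ`. A convex `n`-gon is an `n`-periodic sequence `y : ℤ → ℂ` (vertices in
counterclockwise order). Conventions: `cr` = cross product, `dt` = scalar product.
-/

open MeasureTheory

namespace Pool.Agent.Lib.MP_97284c_gt

/-! ## Plane geometry -/

/-- Cross product of two plane vectors: `Im (conj a * b)`. -/
def cr (a b : ℂ) : ℝ := a.re * b.im - a.im * b.re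

/-- Scalar product of two plane vectors: `Re (conj a * b)`. -/
def dt (a b : ℂ) : ℝ := a.re * b.re + a.im * b.im

/-- Twice the signed area of the triangle `a b c` (positive if counterclockwise). -/
def orient (a b c : ℂ) : ℝ := cr (b - a) (c - a)

/-- The area (Lebesgue measure) of the convex hull of a plane set. -/
noncomputable def hArea (S : Set ℂ) : ℝ := (volume (convexHull ℝ S)).toReal

/-- `A_n`: the supremum of the area of the convex hull of `n` points (repetitions allowed) with all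
pairwise distances at most `1`. -/
noncomputable def smallArea (n : ℕ) : ℝ :=
  sSup {A : ℝ | ∃ v : Fin n → ℂ, (∀ i j, dist (v i) (v j) ≤ 1) ∧ A = hArea (Set.range v)}

/-! ## Finite sequences of points -/

/-- The first `n` points of a sequence. -/
def pts (n : ℕ) (y : ℕ → ℂ) : Set ℂ := {z | ∃ i, i < n ∧ z = y i}

/-- The first `n` points are in weakly convex position, in counterclockwise order. -/
def WCvx (n : ℕ) (y : ℕ → ℂ) : Prop :=
  ∀ i j k : ℕ, i < j → j < k → k < n → 0 ≤ orient (y i) (y j) (y k)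

/-- Area as a sum over the fan of triangles with apex `y 0`. -/
noncomputable def fan (n : ℕ) (y : ℕ → ℂ) : ℝ :=
  (∑ j ∈ Finset.range (n - 1), orient (y 0) (y j) (y (j + 1))) / 2

/-! ## Periodic sequences -/

/-- `n`-periodic sequence. -/
def Per (n : ℕ) (y : ℤ → ℂ) : Prop := ∀ k : ℤ, y (k + n) = y k

/-- Strictly convex position, counterclockwise order. -/
def Cvx (n : ℕ) (y : ℤ → ℂ) : Prop :=
  ∀ i j k : ℤ, i < j → j < k → k < i + n → 0 < orient (y i) (y j) (y k)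

/-- Weakly convex position, counterclockwise order. -/
def CvxW (n : ℕ) (y : ℤ → ℂ) : Prop :=
  ∀ i j k : ℤ, i < j → j < k → k < i + n → 0 ≤ orient (y i) (y j) (y k)

/-- All distances are at most `1`. -/
def Small (y : ℤ → ℂ) : Prop := ∀ i j : ℤ, ‖y i - y j‖ ≤ 1

/-- Shoelace area. -/
noncomputable def sh (n : ℕ) (y : ℤ → ℂ) : ℝ :=
  (∑ j ∈ Finset.range n, cr (y j) (y (j + 1))) / 2

/-- The derivative of the shoelace area at `u` in the direction `v` (symmetric bilinear form). -/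
noncomputable def Bf (n : ℕ) (u v : ℤ → ℂ) : ℝ :=
  (∑ j ∈ Finset.range n, (cr (u j) (v (j + 1)) + cr (v j) (u (j + 1)))) / 2

/-- Maximal small convex `n`-gon. -/
def Opt (n : ℕ) (y : ℤ → ℂ) : Prop :=
  Per n y ∧ Cvx n y ∧ Small y ∧ ∀ z : ℤ → ℂ, Per n z → Cvx n z → Small z → sh n z ≤ sh n y

/-- Unit pair (a diameter), with a normalised representation. The pair `(j, i + n)` is another
representation of the same diameter. -/
def UP (n : ℕ) (y : ℤ → ℂ) (i j : ℤ) : Prop := i < j ∧ j < i + n ∧ ‖y i - y j‖ = 1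

/-- The class `k` contains a unit pair. -/
def Occ (n : ℕ) (y : ℤ → ℂ) (k : ℤ) : Prop := ∃ i j : ℤ, i + j = k ∧ UP n y i j

/-- The unit distance graph is connected (stated with periodic sets of indices). -/
def Conn (n : ℕ) (y : ℤ → ℂ) : Prop :=
  ∀ S : Set ℤ, (∀ k : ℤ, k ∈ S ↔ k + n ∈ S) → (∀ i j : ℤ, UP n y i j → (i ∈ S ↔ j ∈ S)) →
    S = ∅ ∨ S = Set.univ

/-! ## The tree case: one class missing -/

/-- The staircase of unit pairs `(I a, J a)`, `0 ≤ a < M`, `M = n - 1`, when exactly the class `k₀ - 1`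
(modulo `n`) is missing: `I a + J a = k₀ + a`. `ε a = 1`: the point `J` moves, `ε a = -1`: the point `I` moves. -/
structure TS (n M : ℕ) (y : ℤ → ℂ) (I J ε : ℕ → ℤ) : Prop where
  hM : M + 1 = n
  up : ∀ a < M, UP n y (I a) (J a)
  step : ∀ a, a + 1 < M → (ε a = 1 ∧ I (a + 1) = I a ∧ J (a + 1) = J a + 1) ∨
    (ε a = -1 ∧ I (a + 1) = I a + 1 ∧ J (a + 1) = J a)
  gap1 : J 0 = I (M - 1) + 1
  gap2 : J (M - 1) + 1 = I 0 + n
  cover : ∀ i j : ℤ, UP n y i j → ∃ (a : ℕ) (t : ℤ), a < M ∧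
    ((i = I a + t * n ∧ j = J a + t * n) ∨ (i = J a + t * n ∧ j = I a + (t + 1) * n))

/-- The numbers `h a = ε a - ε (a-1)` with `ε (-1) = ε (M-1) = 0`. -/
noncomputable def hT (M : ℕ) (ε : ℕ → ℤ) (a : ℕ) : ℝ :=
  (if a + 1 < M then (ε a : ℝ) else 0) - (if 0 < a then (ε (a - 1) : ℝ) else 0)

/-- The coefficients of the area in terms of the unit vectors. -/
noncomputable def cT (M : ℕ) (ε : ℕ → ℤ) (a b : ℕ) : ℝ :=
  hT M ε a * hT M ε b / 4 + (if b = a + 1 then 1 / 2 else 0) + (if a = 0 ∧ b + 1 = M then 1 / 4 else 0)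

/-- The signs of the rotations: `ε a` for `a < M - 1` and `-ε (M-2)` for `a = M - 1`. -/
def chiT (M : ℕ) (ε : ℕ → ℤ) (a : ℕ) : ℤ := if a + 1 < M then ε a else -ε (M - 2)

/-! ## The closed case: all classes occupied -/

/-- The staircase of unit pairs `(I k, J k)`, `I k + J k = k`, when all classes are occupied.
`e k = 1`: the point `J` moves, `e k = -1`: the point `I` moves. -/
structure Stair (n : ℕ) (y : ℤ → ℂ) (I J e : ℤ → ℤ) : Prop where
  sum : ∀ k, I k + J k = k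
  up : ∀ k, UP n y (I k) (J k)
  uniq : ∀ i j, UP n y i j → i = I (i + j) ∧ j = J (i + j)
  Iper : ∀ k, I (k + n) = J k
  Jper : ∀ k, J (k + n) = I k + n
  step : ∀ k, (e k = 1 ∧ I (k + 1) = I k ∧ J (k + 1) = J k + 1) ∨
    (e k = -1 ∧ I (k + 1) = I k + 1 ∧ J (k + 1) = J k)
  eper : ∀ k, e (k + n) = -e k

/-- The unit vectors of the staircase. -/
def Dv (y : ℤ → ℂ) (I J : ℤ → ℤ) (k : ℤ) : ℂ := y (J k) - y (I k)

/-- The angles between consecutive unit vectors. -/
structure Ang (n : ℕ) (y : ℤ → ℂ) (I J : ℤ → ℤ) (β : ℤ → ℝ) : Prop where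
  rot : ∀ k, Dv y I J (k + 1) = Complex.exp (β k * Complex.I) * Dv y I J k
  pos : ∀ k, 0 < β k
  le : ∀ k, β k ≤ Real.pi / 3
  per : ∀ k, β (k + n) = β k
  sum : ∑ k ∈ Finset.range n, β k = Real.pi

/-- The function `f(β) = (sin β - tan (β/2)) / 2`: a full star with equal angles has area `Σ f(β)`. -/
noncomputable def ff (β : ℝ) : ℝ := (Real.sin β - Real.tan (β / 2)) / 2

/-- The derivative of `ff`. -/
noncomputable def ff' (β : ℝ) : ℝ := Real.cos β / 2 - 1 / (4 * Real.cos (β / 2) ^ 2)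

/-- The same-sign nodes in one period. -/
def SS (n : ℕ) (e : ℤ → ℤ) : Finset ℕ := (Finset.range n).filter (fun k => e ((k : ℤ) - 1) = e k)

/-! ## The star with a pendant vertex -/

/-- Index of the `k`-th vertex of the star (`n = 2 m`, `N = 2 m - 1`): with `r = k mod N`, it is
`i₀ + r/2` for `r` even and `i₀ + m + 1 + (r-1)/2` for `r` odd. -/
def idx (m : ℕ) (i₀ k : ℤ) : ℤ :=
  if (k % (2 * m - 1)) % 2 = 0 then i₀ + (k % (2 * m - 1)) / 2
  else i₀ + m + 1 + (k % (2 * m - 1) - 1) / 2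

/-- The turning angles of the star: `β (k₀ + r)` for `r = k mod N`, `r ≠ 0`, and `β (k₀ - 1) + β k₀` for `r = 0`. -/
noncomputable def alp (m : ℕ) (β : ℤ → ℝ) (k₀ k : ℤ) : ℝ :=
  if k % (2 * m - 1) = 0 then β (k₀ - 1) + β k₀ else β (k₀ + k % (2 * m - 1))

/-- Area of the polygon with vertices `W_0, W_2, ..., W_{N-1}, p, W_1, W_3, ..., W_{N-2}`. -/
noncomputable def St (N : ℕ) (W : ℤ → ℂ) (p : ℂ) : ℝ :=
  ((∑ k ∈ Finset.range N, cr (W k) (W (k + 2))) - cr (W (-1)) (W 1) + cr (W (-1)) p + cr p (W 1)) / 2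

/-- Derivative of `St`. -/
noncomputable def Lst (N : ℕ) (W : ℤ → ℂ) (p : ℂ) (η : ℤ → ℂ) (ζ : ℂ) : ℝ :=
  ((∑ k ∈ Finset.range N, (cr (η k) (W (k + 2)) + cr (W k) (η (k + 2))))
    - cr (η (-1)) (W 1) - cr (W (-1)) (η 1) + cr (η (-1)) p + cr (W (-1)) ζ + cr ζ (W 1) + cr p (η 1)) / 2

/-- A stationary star: the `N`-cycle `W` of unit chords, turning by the angles `α k`, and the pendant
vertex `p` at distance one from `W 0`, which divides the angle `α 0` at `W 0` into `bm` and `bp`. -/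
structure SD (N : ℕ) (W : ℤ → ℂ) (p : ℂ) (α : ℤ → ℝ) (bm bp : ℝ) : Prop where
  Wper : ∀ k, W (k + N) = W k
  αper : ∀ k, α (k + N) = α k
  unit : ∀ k, ‖W (k + 1) - W k‖ = 1
  unitp : ‖p - W 0‖ = 1
  rot : ∀ k, W (k + 1) - W k = Complex.exp (α k * Complex.I) * (W (k - 1) - W k)
  rotm : p - W 0 = Complex.exp (bm * Complex.I) * (W (-1) - W 0)
  rotp : W 1 - W 0 = Complex.exp (bp * Complex.I) * (p - W 0)
  α0 : α 0 = bm + bp
  bm0 : 0 < bm
  bm1 : bm < 7 * Real.pi / 24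
  bp0 : 0 < bp
  bp1 : bp < 7 * Real.pi / 24
  αpos : ∀ k, 0 < α k
  αlt : ∀ k, ¬ ((N : ℤ) ∣ k) → α k < 7 * Real.pi / 24
  sum : ∑ k ∈ Finset.range N, α k = Real.pi
  two : ∀ k, ¬ ((N : ℤ) ∣ k) → ¬ ((N : ℤ) ∣ k + 1) → α k + α (k + 1) ≤ Real.pi / 2
  twop : bp + α 1 ≤ Real.pi / 2
  twom : bm + α (-1) ≤ Real.pi / 2
  stat : ∀ (η : ℤ → ℂ) (ζ : ℂ), (∀ k, η (k + N) = η k) →
    (∀ k, dt (W (k + 1) - W k) (η (k + 1) - η k) ≤ 0) → dt (p - W 0) (ζ - η 0) ≤ 0 →
    Lst N W p η ζ ≤ 0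

/-- The angles `β k`: equal to `α k`, but to half of it at the multiples of `N`. -/
noncomputable def hb (N : ℕ) (α : ℤ → ℝ) (k : ℤ) : ℝ := if (N : ℤ) ∣ k then α k / 2 else α k

/-- The point `O`: the foot of `O` on the line `W_k W_{k+1}` divides the bond in a prescribed way. -/
def IsO (N : ℕ) (W : ℤ → ℂ) (α : ℤ → ℝ) (O : ℂ) : Prop :=
  ∀ k : ℤ, dt (W (k + 1) - W k) (O - W k) = 1 / 2 + (Real.cos (hb N α k) - Real.cos (hb N α (k + 1))) / 4

/-! ## The system of equations -/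

/-- The angle at the first vertex in a triangle with sides `√r` and `1` at this vertex and opposite side `√s`. -/
noncomputable def phi (r s : ℝ) : ℝ := Real.arccos ((1 + r - s) / (2 * Real.sqrt r))

/-- `(2u)²`, where `u` is the distance of the apex from the side of length `1` in a triangle with sides `√r, √s, 1`. -/
def q4 (r s : ℝ) : ℝ := 2 * (r + s) - 1 - (r - s) ^ 2

/-- Weights: `2` at the multiples of `N`, `1` elsewhere. -/
noncomputable def wt (N : ℕ) (k : ℤ) : ℝ := if (N : ℤ) ∣ k then 2 else 1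

/-- Admissible data. -/
structure Adm (N : ℕ) (ρ : ℤ → ℝ) (J : ℝ) : Prop where
  per : ∀ k, ρ (k + N) = ρ k
  tri : ∀ k, 0 < q4 (ρ k) (ρ (k + 1))
  sml : ∀ k, ρ k + ρ (k + 1) ≤ 3 / 4
  lo : ∀ k, -1 ≤ 2 * (ρ k - J)
  hi : ∀ k, 2 * (ρ k - J) ≤ 1

/-- Solutions of the system. -/
structure Sol (N : ℕ) (ρ : ℤ → ℝ) (J : ℝ) : Prop extends Adm N ρ J where
  eq : ∀ k, phi (ρ k) (ρ (k - 1)) + phi (ρ k) (ρ (k + 1)) = wt N k * Real.arccos (2 * (ρ k - J))
  sum : ∑ k ∈ Finset.range N, wt N k * Real.arccos (2 * (ρ k - J)) = Real.pi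

/-- The area in terms of a solution. -/
noncomputable def Val (N : ℕ) (ρ : ℤ → ℝ) (J : ℝ) : ℝ :=
  (∑ k ∈ Finset.range N, wt N k * Real.sqrt (1 - (2 * (ρ k - J)) ^ 2)) / 2
    - (∑ k ∈ Finset.range N, Real.sqrt (q4 (ρ k) (ρ (k + 1)))) / 2

/-- Potential of a bond: its partial derivatives are `phi r s` and `phi s r`. -/
noncomputable def Phi (r s : ℝ) : ℝ := r * phi r s + s * phi s r - Real.sqrt (q4 r s) / 2

/-- Primitive of `arccos (2 y)`. -/
noncomputable def Psi (y : ℝ) : ℝ := y * Real.arccos (2 * y) - Real.sqrt (1 - (2 * y) ^ 2) / 2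

/-- The strictly convex function whose minimum is the area. -/
noncomputable def Sf (N : ℕ) (ρ : ℤ → ℝ) (J : ℝ) : ℝ :=
  (∑ k ∈ Finset.range N, Phi (ρ k) (ρ (k + 1))) - (∑ k ∈ Finset.range N, wt N k * Psi (ρ k - J))
    - Real.pi * J

end Pool.Agent.Lib.MP_97284c_gt
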