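import Pool.Agent.Lib.MP_97284c_gt.Basic

/-!
# Largest small polygons (MP_97284c_gt). Statements, part U: convexity, uniqueness, minimum principle

Notation: `u = √(q4 r s) / 2`, where `q4 r s = 2 (r + s) - 1 - (r - s)²`. The domain is `q4 r s > 0`, `r + s ≤ 3/4`.
Useful identities: `4 r - (1 + r - s)² = q4 r s = 4 s - (1 + s - r)²` (so `r, s > 0`).
-/

namespace Pool.Agent.Lib.MP_97284c_gt

/-- [U1] Derivative of `phi` along a line. Proof: `F(t) = (1 + r - s + t (x - y)) / (2 √(r + t x))`; at `t = 0` with `r > 0`: `F' = (x - y)/(2√r) - (1 + r - s) x/(4 r √r) = ((r + s - 1) x/(2r) - y)/(2√r)`. `1 - F² = q4 r s/(4r) > 0`, `√(1 - F²) = √(q4)/(2√r) = u/√r`. `arccos' = -1/√(1 - F²)`: derivative `-(√r/u) F' = ((1 - r - s) x/(2r) + y)/(2u)`. -/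
def S_U1 : Prop := ∀ r s x y : ℝ, 0 < q4 r s →
  HasDerivAt (fun t : ℝ => phi (r + t * x) (s + t * y))
    (((1 - r - s) * x / (2 * r) + y) / Real.sqrt (q4 r s)) 0

/-- [U2] Derivative of `Phi` along a line. Proof: `Phi = r phi r s + s phi s r - √q4/2`. By `[U1]` (for `(r,s)` and for `(s,r)`, `q4 s r = q4 r s`) the derivative is `x phi r s + y phi s r + r ((1-r-s)x/(2r) + y)/√q4 + s ((1-r-s) y/(2s) + x)/√q4 - (√q4)'/2`, and `(√q4)' = (2(x+y) - 2(r-s)(x-y))/(2√q4)`.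
The terms with `1/√q4` cancel: `(1-r-s)(x+y)/2 + r y + s x = (x + y - (r-s)(x-y))/2` (check: both equal `(x + y - r x + r y + s x - s y)/2`). -/
def S_U2 : Prop := ∀ r s x y : ℝ, 0 < q4 r s →
  HasDerivAt (fun t : ℝ => Phi (r + t * x) (s + t * y)) (x * phi r s + y * phi s r) 0

/-- [U3] The quadratic form. Proof: with `v = √(q4 r s)` (`v = 2u`), `w = 1 - r - s ≥ 1/4`, `δ = r - s`. Claim `(1/v)(w (x²/r + y²/s)/2 + 2 x y) + (x - y)²/2 ≥ 0`, strictly if `x = y ≠ 0`. Second assertion: clear since `w, r, s, v > 0`. First: the symmetric matrix has diagonal entries `w/(2 v r) + 1/2`, `w/(2 v s) + 1/2 > 0` and off-diagonal `1/v - 1/2`. Its determinant times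
`4 v² r s` is `w² + w v (r + s) - 4 r s + 4 v r s`. Using `4 r s = (r+s)² - δ² = w² + v²` (since `v² = 2(r+s) - 1 - δ²`, `(r+s)² - 2 (r+s) + 1 = w²`) this equals `w v (r+s) - v² + v (w² + v²) = v (w (r + s + w) - v + v²) = v (w + v² - v)` (`r + s + w = 1`) `= v (σ - δ² - v)` with `σ = r + s` (`w + v² = σ - δ²`).
`σ - δ² ≥ v`: `σ - δ² ≥ σ - (2σ - 1) = w > 0` and `(σ - δ²)² - v² = w² - v² δ² ≥ 0` because `v |δ| ≤ (v² + δ²)/2 = (2σ - 1)/2 ≤ 1/4 ≤ w`. -/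
def S_U3 : Prop := ∀ r s x y : ℝ, 0 < q4 r s → r + s ≤ 3 / 4 →
  -(x - y) ^ 2 / 2 ≤ x * (((1 - r - s) * x / (2 * r) + y) / Real.sqrt (q4 r s)) +
    y * (((1 - s - r) * y / (2 * s) + x) / Real.sqrt (q4 r s)) ∧
  (x = y → x ≠ 0 → 0 < x * (((1 - r - s) * x / (2 * r) + y) / Real.sqrt (q4 r s)) +
    y * (((1 - s - r) * y / (2 * s) + x) / Real.sqrt (q4 r s)))

/-- [U4] Convexity inequality for a bond. Proof: `x = r' - r`, `y = s' - s`; the points `(r + t x, s + t y)`, `t ∈ [0,1]`, are in the domain: `q4` is concave (`q4 = 2(r+s) - 1 - (r-s)²`), so positive on the segment; `r + s ≤ 3/4` linear. `g(t) = Phi (r + t x) (s + t y)`; by `[U2]` (at the point `t`) `g'(t) = x phi(..) + y phi(..)`, by `[U1]` `g''(t) =` the form of `[U3]`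
`≥ -(x-y)²/2`. So `g(t) + (x-y)² t²/4` is convex on `[0,1]` and `g(1) + (x-y)²/4 ≥ g(0) + g'(0)`. If `x = y ≠ 0`, `g'' > 0` on `[0,1]` and `g(1) > g(0) + g'(0)`. -/
def S_U4 : Prop := ∀ r s r' s' : ℝ, 0 < q4 r s → r + s ≤ 3 / 4 → 0 < q4 r' s' → r' + s' ≤ 3 / 4 →
  (Phi r s + phi r s * (r' - r) + phi s r * (s' - s) - ((r' - r) - (s' - s)) ^ 2 / 4 ≤ Phi r' s') ∧
  (r' - r = s' - s → r' ≠ r → Phi r s + phi r s * (r' - r) + phi s r * (s' - s) < Phi r' s')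

/-- [U5] Proof: `Psi y = y arccos (2y) - √(1-4y²)/2` is continuous on `[-1/2,1/2]`, `Psi' y = arccos (2 y)` and `Psi'' y = -2/√(1 - 4y²) ≤ -2` inside, `< -2` except at `y = 0`. So `Psi y + y²` is strictly concave on `[-1/2, 1/2]` (its derivative `arccos (2y) + 2y` is strictly decreasing, also as a continuous function on the closed interval), hence for `y ≠ y'`:
`Psi y' + y'² < Psi y + y² + (arccos (2y) + 2y)(y' - y)`, which is the claim. (At the end points `y = ±1/2` use the limit: the function `Psi + y²` is continuously differentiable on the closed interval from inside; or use the mean value theorem between `y` and `y'`: `Psi y' - Psi y = arccos (2ξ) (y' - y)` with `ξ` strictly between, twice; or integrate.) -/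
def S_U5 : Prop := ∀ y y' : ℝ, -1 ≤ 2 * y → 2 * y ≤ 1 → -1 ≤ 2 * y' → 2 * y' ≤ 1 →
  Psi y' ≤ Psi y + Real.arccos (2 * y) * (y' - y) - (y' - y) ^ 2 ∧
  (y' ≠ y → Psi y' < Psi y + Real.arccos (2 * y) * (y' - y) - (y' - y) ^ 2)

/-- [U6] The minimum principle. Proof: `d k = ρ' k - ρ k`, `j = J' - J`, `e k = d k - j`, `w k = wt N k ≥ 1`, `A k = phi (ρ k) (ρ (k-1)) + phi (ρ k) (ρ (k+1)) = w k arccos (2(ρ k - J))`, `∑ A k = π`. `[U4]` for each bond and shifting: `∑ Phi (ρ' k) (ρ' (k+1)) - ∑ Phi (ρ k) (ρ (k+1)) ≥ ∑ A k d k - (1/4) ∑ (d k - d (k+1))²`, and `d k - d (k+1) = e k - e (k+1)`.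
`[U5]`: `-∑ w k Psi (ρ' k - J') + ∑ w k Psi (ρ k - J) ≥ -∑ A k e k + ∑ w k (e k)²` (`(ρ' k - J') - (ρ k - J) = e k`). Sum with `-π (J' - J)`: `Sf' - Sf ≥ ∑ A k (d k - e k) - π j + ∑ w k e k² - (1/4) ∑ (e k - e (k+1))² ≥ 0`, since `∑ A k j = π j` and `(1/4)(e - e')² ≤ (e² + e'²)/2`. If `Sf' = Sf` all inequalities are equalities: by `[U5]` (strict part)
`e k = 0` for all `k` (first for `0 ≤ k < N`, then all `k` by periodicity), so `d k = j` for all `k`; if `j ≠ 0` the strict part of `[U4]` gives `Sf' > Sf`, contradiction. So `j = 0`, `ρ' = ρ`. -/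
def S_U6 : Prop := ∀ (N : ℕ) (ρ ρ' : ℤ → ℝ) (J J' : ℝ), 1 ≤ N → Sol N ρ J → Adm N ρ' J' →
  Sf N ρ J ≤ Sf N ρ' J' ∧ (Sf N ρ' J' = Sf N ρ J → ρ' = ρ ∧ J' = J)

/-- [U7] Value at a solution. Proof: with `A k = w k arccos (2(ρ k - J))`, `∑ A k = π`: `∑ (ρ k phi (ρ k) (ρ (k+1)) + ρ (k+1) phi (ρ (k+1)) (ρ k)) = ∑ ρ k A k` (shift), and `∑ w k Psi (ρ k - J) = ∑ A k (ρ k - J) - (1/2) ∑ w k √(1 - (2(ρ k - J))²)`. So `Sf = ∑ ρ A - (1/2) ∑ √q4 - ∑ A (ρ - J) + (1/2) ∑ w √.. - π J = Val`. -/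
def S_U7 : Prop := ∀ (N : ℕ) (ρ : ℤ → ℝ) (J : ℝ), 1 ≤ N → Sol N ρ J → Sf N ρ J = Val N ρ J

/-- [U8] Reflection. Proof: `ρ' k = ρ (-k)`: `per`, `tri` (`q4` symmetric: `q4 (ρ (-k)) (ρ (-k-1))` is the condition at `-k-1`), `sml`, `lo`, `hi` clear; `eq` at `k` is `eq` at `-k`, `wt N (-k) = wt N k`; `sum`: `psum_neg`. -/
def S_U8 : Prop := ∀ (N : ℕ) (ρ : ℤ → ℝ) (J : ℝ), Sol N ρ J → Sol N (fun k => ρ (-k)) J

/-- [Main] Proof: `n = 2m ≥ 8`, `N = 2m - 1 ≥ 7`. `[T8]`: `y` with `Opt n y` and all classes occupied; `sh n y = smallArea n` (`[A9]`). `[S1a]`, `[S1c]`, `[S11]`, `[N5]`, `[F11]`: a solution `(ρ, J)` with `Val = smallArea n`. `[U6]`, `[U7]`: uniqueness and the minimum principle; `[U8]` and uniqueness: `ρ (-k) = ρ k`. -/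
def S_Main : Prop := ∀ m : ℕ, 3 ≤ m → ∃ (ρ : ℤ → ℝ) (J : ℝ), Sol (2 * m - 1) ρ J ∧
  (∀ ρ' J', Sol (2 * m - 1) ρ' J' → ρ' = ρ ∧ J' = J) ∧ (∀ k, ρ (-k) = ρ k) ∧
  smallArea (2 * m) = Val (2 * m - 1) ρ J ∧ smallArea (2 * m) = Sf (2 * m - 1) ρ J ∧
  (∀ ρ' J', Adm (2 * m - 1) ρ' J' → smallArea (2 * m) ≤ Sf (2 * m - 1) ρ' J' ∧
    (smallArea (2 * m) = Sf (2 * m - 1) ρ' J' → ρ' = ρ ∧ J' = J))

end Pool.Agent.Lib.MP_97284c_gt
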