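import Pool.Agent.Lib.MP_97284c_gt.Basic

/-!
# Largest small polygons (MP_97284c_gt). Statements, part T: the tree case is impossible

If exactly one class is missing, the unit distance graph is a tree (caterpillar), all unit vectors `D a` can be
rotated independently, and the exact second variation is positive: contradiction to maximality.
-/

namespace Pool.Agent.Lib.MP_97284c_gt

/-- [T1] The staircase. Proof: `M = n - 1`. For each class `k₀ + a`, `0 ≤ a < M`, let `(I a, J a)` be its unit pair (`Occ`; unique by `[C2]`). `[C3]` gives the steps (`ε a = 1` if `J` moves, `-1` if `I` moves). The class `k₀ + M = k₀ - 1 + n` is empty (periodicity `[UPs]`), and the class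
`k₀ + M + 1 = k₀ + n` contains `(J 0, I 0 + n)` (`[UPs]`); `[C3b]` with `(i,j) = (I (M-1), J (M-1))`: `J 0 = I (M-1) + 1`, `I 0 + n = J (M-1) + 1`. `cover`: let `UP n y i j`, `i + j = k₀ + a + s n` with `0 ≤ a < n`, `s ∈ ℤ`; `a ≠ M` as that class is empty. If `s = 2t`:
`(i - t n, j - t n)` is a unit pair of class `k₀ + a`, so it is `(I a, J a)`. If `s = 2t + 1`: `(j - (t+1) n, i - t n)` is a unit pair (`[UPs]`) of class `k₀ + a`, so `i = J a + t n`, `j = I a + (t+1) n`. -/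
def S_T1 : Prop := ∀ (n : ℕ) (y : ℤ → ℂ) (k₀ : ℤ), 4 ≤ n → Opt n y → ¬ Occ n y (k₀ - 1) →
  (∀ k : ℤ, ¬ ((n : ℤ) ∣ k - (k₀ - 1)) → Occ n y k) → ∃ (I J ε : ℕ → ℤ), TS n (n - 1) y I J ε

/-- [T2b] Every index is a vertex of the staircase. Proof: the numbers `I a` go from `I 0` to `I (M-1)` in steps `0, 1`, so they take all integer values in `[I 0, I (M-1)]`; the `J a` take all values in `[J 0, J (M-1)] = [I (M-1) + 1, I 0 + n - 1]`. Together a complete system of residues modulo `n`: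
choose `t` with `I 0 ≤ k - t n < I 0 + n`. -/
def S_T2b : Prop := ∀ (n M : ℕ) (y : ℤ → ℂ) (I J ε : ℕ → ℤ), 4 ≤ n → TS n M y I J ε →
  ∀ k : ℤ, ∃ (a : ℕ) (t : ℤ), a < M ∧ (k = I a + t * n ∨ k = J a + t * n)

/-- [T2] Consistent values on the staircase extend to a periodic sequence. Proof: for `r ∈ [I 0, I (M-1)]` let `z r = X a` for the least `a` with `I a = r`; if also `I a' = r`, `a < a'`, then `I` is constant on `[a,a']`, so `ε = 1` there and `X a' = X a`. For `r ∈ [J 0, J (M-1)]` similarly with `Y` (`J` constant means `ε = -1`).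
The two intervals are disjoint with union `[I 0, I 0 + n - 1]`; extend periodically (`z k = z (I 0 + (k - I 0) mod n)`). -/
def S_T2 : Prop := ∀ (n M : ℕ) (y : ℤ → ℂ) (I J ε : ℕ → ℤ), 4 ≤ n → TS n M y I J ε →
  ∀ X Y : ℕ → ℂ, (∀ a, a + 1 < M → (ε a = 1 → X (a + 1) = X a) ∧ (ε a = -1 → Y (a + 1) = Y a)) →
    ∃ z : ℤ → ℂ, Per n z ∧ ∀ a < M, z (I a) = X a ∧ z (J a) = Y a

/-- [T3] Area along the staircase. Proof: let `G` be an antiderivative of `g k = cr (z k) (z (k+1))` (`exists_antideriv`, `antideriv_per`): `G (k+n) - G k = 2 sh n z`. For every step `cr (z (I a)) (z (I (a+1))) = G (I (a+1)) - G (I a)` (both for `I (a+1) = I a`, `cr_self`, and `I a + 1`), the same for `J`; and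
`cr (z (I (M-1))) (z (J 0)) = G (J 0) - G (I (M-1))`, `cr (z (J (M-1))) (z (I 0)) = cr (z (J (M-1))) (z (I 0 + n)) = G (I 0 + n) - G (J (M-1))`. Everything telescopes to `G (I 0 + n) - G (I 0)`. -/
def S_T3 : Prop := ∀ (n M : ℕ) (y : ℤ → ℂ) (I J ε : ℕ → ℤ), 4 ≤ n → TS n M y I J ε → ∀ z : ℤ → ℂ, Per n z →
  sh n z = ((∑ a ∈ Finset.range (M - 1), (cr (z (I a)) (z (I (a + 1))) + cr (z (J a)) (z (J (a + 1)))))
    + cr (z (I (M - 1))) (z (J 0)) + cr (z (J (M - 1))) (z (I 0))) / 2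

/-- [T4] The area as a quadratic form in the unit vectors `D a = Y a - X a`. Proof. `C a = (X a + Y a)/2`. Step: `C (a+1) - C a = (ε a / 2) (D (a+1) - D a)` in both cases. `cr (X a) (X b) + cr (Y a) (Y b) = 2 cr (C a) (C b) + cr (D a) (D b) / 2` and
`cr (X b) (Y a) + cr (Y b) (X a) = 2 cr (C b) (C a) - cr (D b) (D a)/2`. So the left side is `∑_{a<M-1} cr (C a) (C (a+1)) + cr (C (M-1)) (C 0) + (1/4) ∑_{a<M-1} cr (D a) (D (a+1)) + (1/4) cr (D 0) (D (M-1))`. With `Δ a = D (a+1) - D a` and `G b = ∑_{a<b} ε a Δ a = 2 (C b - C 0)` the `C` part is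
`(1/4) ∑_{b<M-1} ε b cr (G b) (Δ b)` (translate `C 0` to `0`; closed polygon). Claim: `∑_{b<M-1} ε b cr (G b) (Δ b) = ∑_{a<b<M} h a h b cr (D a) (D b) + ∑_{b<M-1} cr (D b) (D (b+1))`, `h = hT M ε`. Proof of the claim: let `k a = ε a - ε (a-1)` (`ε (-1) = 0`), `P b = ∑_{a<b} k a D a`. Then `G b = ε (b-1) D b - P b` (`G 0 = 0 = P 0`).
Left term: `ε b ε(b-1) cr (D b) (D (b+1)) - ε b cr (P b) (D (b+1)) + ε b cr (P b) (D b)`. Right: `∑_b h b cr (P b) (D b)`, with `h b = ε b - ε (b-1)` for `b < M-1` and `h (M-1) = -ε (M-2)`, equals `∑_{b<M-1} ε b cr (P b) (D b) - ∑_{b<M-1} ε b cr (P (b+1)) (D (b+1))`, and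
`P (b+1) = P b + k b D b`, `ε b k b = 1 - ε b ε (b-1)` (`= 1` for `b = 0`). Compare. (`hT M ε a = k a` for `a < M - 1`.) -/
def S_T4 : Prop := ∀ (M : ℕ) (ε : ℕ → ℤ) (X Y : ℕ → ℂ), 3 ≤ M →
  (∀ a, a + 1 < M → (ε a = 1 ∧ X (a + 1) = X a) ∨ (ε a = -1 ∧ Y (a + 1) = Y a)) →
  ((∑ a ∈ Finset.range (M - 1), (cr (X a) (X (a + 1)) + cr (Y a) (Y (a + 1))))
    + cr (X (M - 1)) (Y 0) + cr (Y (M - 1)) (X 0)) / 2 =
  ∑ b ∈ Finset.range M, ∑ a ∈ Finset.range b, cT M ε a b * cr (Y a - X a) (Y b - X b)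

/-- [T5] The sign of the second variation. Proof. `χ = chiT M ε`, `h = hT M ε`. For `0 < a < M-1` `h a = ε a - ε (a-1)` is `0` or `2 χ a`; `h 0 = χ 0`, `h (M-1) = χ (M-1)`. So `h a = w a χ a` with `w 0 = w (M-1) = 1`, `w a = 2` at the sign changes `0 < a < M-1`, `w a = 0` otherwise (node: `w a > 0`).
`h a h b (χ a χ b - 1) = w a w b (1 - χ a χ b) =: 4 F(a,b) / s a b`, i.e. `F(a,b) = (1/4) w a w b (1 - χ a χ b) s a b ≥ 0`. The sum is `∑_{a<b} F(a,b) - (1/2) ∑_{b=1}^{M-1} (1 - χ (b-1) χ b) s (b-1) b - (1/4) (1 - χ 0 χ (M-1)) s 0 (M-1)`.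
For `b ≥ 1` let `pr b` be the largest node `< b` (node `0` exists). `ε` is constant on `[pr b, b-1]` and `χ (pr b) = χ (b-1) = ε (b-1)`. `1 - χ (b-1) χ b` is `0` if `b` is not a node, `2` if `b` is a node (`b = M-1` always is a node with `χ (M-1) = -ε (M-2)`).
By the fan hypothesis `s (b-1) b ≤ s (pr b) b`, strictly if `pr b < b - 1`. For a node `b < M-1`: `F(pr b, b) = w (pr b) s (pr b) b ≥ s (pr b) b`, so `F(pr b, b) - s (b-1) b ≥ 0`. For `b = M-1`: as `ε` is not constant, `pr (M-1) > 0`, `w (pr (M-1)) = 2`, `F(pr (M-1), M-1) = s (pr (M-1)) (M-1) ≥ s (M-2) (M-1)`; moreover the term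
`F(0, M-1) = (1/4)(1 - χ 0 χ (M-1)) s 0 (M-1)` is a different one and cancels the last negative term. All other `F ≥ 0`. So the sum is `≥ 0`. Strict: if `pr (M-1) < M-2`, the estimate for `b = M-1` is strict. If `pr (M-1) = M-2 =: b'` (a node, `0 < b' < M-1` since `M ≥ 4`): if `pr b' < b' - 1` strict; otherwise
`pr b' = b' - 1 = M - 3 ≥ 1` is a node with `w = 2`, and `F(pr b', b') = 2 s (pr b') b' > s (b'-1) b'`. -/
def S_T5 : Prop := ∀ (M : ℕ) (ε : ℕ → ℤ) (s : ℕ → ℕ → ℝ), 4 ≤ M → (∀ a, a + 1 < M → ε a = 1 ∨ ε a = -1) →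
  (∃ a, a + 2 < M ∧ ε (a + 1) ≠ ε a) → (∀ a b, a < b → b < M → 0 < s a b) →
  (∀ a b, a + 1 < b → b < M → (∀ c, a ≤ c → c < b → ε c = ε a) → s (b - 1) b < s a b) →
  0 < ∑ b ∈ Finset.range M, ∑ a ∈ Finset.range b, cT M ε a b * (((chiT M ε a * chiT M ε b : ℤ) : ℝ) - 1) * s a b

/-- [T5b] Crossing and fans. Proof. Let `p = y (I a)`, `r = y (J a)`, `q = y (I b)`, `s = y (J b)`; `I a ≤ I b ≤ I (M-1) = J 0 - 1 < J a ≤ J b < I a + n` (`I, J` nondecreasing, `J b ≤ J (M-1) = I 0 + n - 1`), and not both `I a = I b`, `J a = J b` (the sum `I + J` increases by one at each step). `cr (r - p) (s - q) = orient p q r + orient r s p`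
(identity); `orient p q r > 0` if `I a < I b` and `= 0` if equal; `orient r s p > 0` if `J a < J b`, `= 0` if equal. So the sum is `> 0`. Fan: `ε` constant on `[a,b)`, say `ε = 1`: `I` constant, `D c = y (J c) - x` with `x = y (I a)` for all `c ∈ [a,b]`, unit vectors with mutual distances `‖D c - D d‖ = ‖y (J c) - y (J d)‖ ≤ 1`, so
`dt (D c) (D d) ≥ 1/2`, and `cr (D c) (D d) > 0` for `c < d`. Claim: for unit vectors `A, B, C` (`A = D a`, `B = D (b-1)`, `C = D b`) with `cr A B, cr B C, cr A C > 0` and `dt A C ≥ 1/2`: `cr B C < cr A C`. Indeed write `B = e^{iφ} A`, `C = e^{iψ} B`, `φ, ψ ∈ (0, π)`; `sin (φ+ψ) > 0`, `cos (φ+ψ) ≥ 1/2`, `0 < φ + ψ < 2π`: so `φ + ψ ∈ (0, π/3]` and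
`sin ψ < sin (φ + ψ)`. The case `ε = -1` is the same with `D c = x - y (I c)`, `x = y (J a)`. -/
def S_T5b : Prop := ∀ (n M : ℕ) (y : ℤ → ℂ) (I J ε : ℕ → ℤ), 4 ≤ n → Per n y → Cvx n y → Small y → TS n M y I J ε →
  (∀ a b, a < b → b < M → 0 < cr (y (J a) - y (I a)) (y (J b) - y (I b))) ∧
  (∀ a b, a + 1 < b → b < M → (∀ c, a ≤ c → c < b → ε c = ε a) →
    cr (y (J (b - 1)) - y (I (b - 1))) (y (J b) - y (I b)) < cr (y (J a) - y (I a)) (y (J b) - y (I b)))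

/-- [T6] The staircase changes direction. Proof: otherwise `ε a = ε 0` for all `a + 1 < M`. Case `ε = 1`: `I a = I 0`, `J a = J 0 + a`, `J 0 = I 0 + 1`. The vertex `J 0` lies (modulo `n`) only in the unit pair `a = 0` (`cover`: `J a ≡ J 0` only for `a = 0`, `I 0 = J 0 - 1 ≢ J 0`). Let `η = ±I · D 0` at the indices `≡ J 0`, `0` elsewhere, `D 0 = y (J 0) - y (I 0)`.
For all unit pairs `dt (y i - y j) (η i - η j) = 0` (for `a = 0` it is `± dt (D 0) (I D 0) = 0`). `[P1]` for both signs and `[P2]`: `cr (I D 0) (y (J 0 + 1) - y (J 0 - 1)) = 0`, where `y (J 0 + 1) - y (J 0 - 1) = y (J 1) - y (I 1) = D 1`. So `dt (D 0) (D 1) = 0`; but `‖D 1 - D 0‖ = ‖y (J 1) - y (J 0)‖ ≤ 1` gives `dt ≥ 1/2`, contradiction. Case `ε = -1`: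
`J a = J 0`, `I a = I 0 + a`, `J 0 = I 0 + n - 1` (by `gap2`, `J (M-1) = J 0`). The vertex `I 0` is only in the pair `a = 0`; neighbours `I 0 - 1 ≡ J 0`, `I 0 + 1 = I 1`; `cr (I D 0) (y (I 1) - y (J 0)) = -cr (I D 0) (D 1) = 0`, and `‖D 1 - D 0‖ = ‖y (I 0) - y (I 1)‖ ≤ 1`. -/
def S_T6 : Prop := ∀ (n M : ℕ) (y : ℤ → ℂ) (I J ε : ℕ → ℤ), 5 ≤ n → Opt n y → TS n M y I J ε →
  ∃ a, a + 2 < M ∧ ε (a + 1) ≠ ε a

/-- [T7] The tree case is impossible. Proof: `D a = y (J a) - y (I a)`, `X a = y (I a)`, `Y a = y (J a)`, `χ = chiT M ε ∈ {1,-1}`. For real `t` define `X̂ 0 = X 0`, `Ŷ 0 = X 0 + e^{iχ_0 t} D 0`, and recursively: if `ε a = 1`: `X̂ (a+1) = X̂ a`, `Ŷ (a+1) = X̂ a + e^{iχ t} D (a+1)`; if `ε a = -1`: `Ŷ (a+1) = Ŷ a`, `X̂ (a+1) = Ŷ a - e^{iχ t} D (a+1)`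
(`χ = χ (a+1)`). So `Ŷ a - X̂ a = e^{iχ_a t} D a` always, and by induction `‖X̂ a - X a‖, ‖Ŷ a - Y a‖ ≤ (a+1) |t|` (`|e^{it} - 1| ≤ |t|`). Let `z t` be the periodic sequence of `[T2]`. By `[T2b]` `‖z t k - y k‖ ≤ n |t|` for all `k`. Unit pairs stay at distance `1` (`cover`). By `[P0]`: `sh n (z t) ≤ sh n y` for `|t|` small. By `[T3]`, `[T4]`:
`sh n (z t) = ∑_{a<b} c_ab cr (e^{iχ_a t} D a) (e^{iχ_b t} D b) = ∑ c_ab (cos ((χ_b - χ_a) t) s_ab + sin ((χ_b - χ_a) t) d_ab)`, `s_ab = cr (D a) (D b)`, `d_ab = dt (D a) (D b)`, and the same for `y` with `t = 0`. Hence `sh (z t) + sh (z (-t)) - 2 sh y = 2 ∑ c_ab (cos ((χ_b - χ_a) t) - 1) s_ab = (1 - cos 2t) ∑ c_ab (χ_a χ_b - 1) s_ab`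
(for `χ_a = χ_b` both sides `0`; for `χ_a = -χ_b`: `2 (cos 2t - 1) = (1 - cos 2t) (-2)`). By `[T5]` with `[T5b]`, `[T6]` this is `> 0` for small `t ≠ 0`: contradiction. -/
def S_T7 : Prop := ∀ (n M : ℕ) (y : ℤ → ℂ) (I J ε : ℕ → ℤ), 5 ≤ n → Opt n y → TS n M y I J ε → False

/-- [T8] There is a maximiser with all classes occupied. Proof: `[C5]` gives `y` with `Opt`, `Conn`; `[C6]` gives `k₁` such that all classes `k ≢ k₁` are occupied. If the class `k₁` is occupied, all are (`[UPs]`). Otherwise `[T1]` with `k₀ = k₁ + 1` and `[T7]` give a contradiction. -/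
def S_T8 : Prop := ∀ n : ℕ, 5 ≤ n → ∃ y, Opt n y ∧ ∀ k, Occ n y k

end Pool.Agent.Lib.MP_97284c_gt
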