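import Pool.Agent.Lib.MP_97284c_gt.Basic

/-!
# Largest small polygons (MP_97284c_gt). Statements, part A: hulls, existence of maximisers

Every `S_xx : Prop` is one independent piece with a complete proof in words; pieces named in a proof
may be used as hypotheses of the theorem. Algebra of `cr`, `dt`, `orient`: see `Basic.lean`
(`orient_eq : orient a b c = cr a b + cr b c + cr c a`, ...).
-/

open MeasureTheory

namespace Pool.Agent.Lib.MP_97284c_gt

/-- [A1] Area of a triangle. Proof: `convexHull {a,b,c}` is the image of the standard triangle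
`T = convexHull {0, 1, I}` under the real affine map `z ↦ a + z.re • (b - a) + z.im • (c - a)`, whose linear part has
determinant `cr (b-a) (c-a) = orient a b c`; `MeasureTheory.Measure.addHaar_image_linearMap` (works also for
determinant zero) and translation invariance. `T = {x, y ≥ 0, x + y ≤ 1}` has volume `1/2`: it is the region between
two graphs (`volume_regionBetween_eq_integral`, via `Complex.volume_preserving_equiv_real_prod`), or use that `T` and `1 + I - T`
cover the unit square with null intersection. -/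
def S_A1 : Prop := ∀ a b c : ℂ,
  volume (convexHull ℝ ({a, b, c} : Set ℂ)) = ENNReal.ofReal (|orient a b c| / 2)

/-- [A2] A line is a null set. Proof: `{z | orient a b z = 0}` is `a + ℝ (b - a)` for `a ≠ b`; it is (contained in) an affine
subspace different from the plane: `MeasureTheory.Measure.addHaar_affineSubspace`; it is not everything since
`orient a b (a + I (b - a)) = ‖b - a‖² ≠ 0`. -/
def S_A2 : Prop := ∀ a b : ℂ, a ≠ b → volume {z : ℂ | orient a b z = 0} = 0

/-- [A3] Adding a point to a weakly convex chain adds the triangle `y 0, y (n-1), y n` to the hull.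
Proof. `⊇` is clear (the three points are among the first `n + 1`). `⊆`: Let `K = convexHull (pts n y)`, `a = y 0`, `b = y (n-1)` (both in
`K`), `q = y n`. `pts (n+1) y = insert q (pts n y)`; by `convexHull_insert` every `x` in the left side lies on a segment
`x = (1-t) c + t q` with `c ∈ K`, `t ∈ [0,1]`. The functions `z ↦ orient a z q`, `z ↦ orient a z b`, `z ↦ orient z b q` are affine and
`≥ 0` at the points `y i`, `i < n` (weak convexity; for `i = 0` or `i = n-1` the values are `0` or the required inequality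
`orient a b q ≥ 0` — if `n = 1` then `a = b` and everything is `0`), hence `≥ 0` on `K` (`convexHull_min` into a half plane).
Case 1: `orient a c q = 0`: then `a, c, q` are collinear, and on a line every point between `c` and `q` is between `a` and `c` or
between `a` and `q`: so `x ∈ [a,c] ⊆ K` or `x ∈ [a,q] ⊆` triangle. (If `a = q` then `q ∈ K` and `x ∈ K`; if `a ≠ q`, `c - a = γ (q - a)` with
real `γ`, `x - a = ξ (q - a)`, `ξ` between `γ` and `1`; if `ξ ∈ [0,1]` then `x ∈ [a,q]`, otherwise `ξ` is between `0` and `γ`.)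
Case 2: `orient a c q > 0` and `orient a b q = 0`. Then `q ≠ a`, `b - a = ν (q - a)` for a real `ν`, and with `κ = cr (c-a) (q-a) > 0`:
`0 ≤ orient c b q = (ν - 1) κ`, so `ν ≥ 1` and `q = a + (1/ν) (b - a) ∈ K`, so `x ∈ K`.
Case 3: `orient a c q > 0` (or `≥ 0`) and `orient a b q > 0`. `orient a b c ≤ 0` and `orient a b q > 0`, so some point
`d = (1-s) c + s q`, `s ∈ [0,1]`, has `orient a b d = 0`; as `a ≠ b`, `d = a + l (b - a)`. `l · orient a b q = orient a d q = (1-s) orient a c q ≥ 0`
so `l ≥ 0`; `(1 - l) orient a b q = orient d b q = (1-s) orient c b q ≥ 0`, so `l ≤ 1`. So `d ∈ [a,b] ⊆ K`, and `x` is on `[c,d] ⊆ K` or on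
`[d,q] ⊆` triangle. -/
def S_A3 : Prop := ∀ (n : ℕ) (y : ℕ → ℂ), 1 ≤ n → WCvx (n + 1) y →
  convexHull ℝ (pts (n + 1) y) = convexHull ℝ (pts n y) ∪ convexHull ℝ ({y 0, y (n - 1), y n} : Set ℂ)

/-- [A4] The area of the hull of a weakly convex sequence is the fan sum. Proof by induction on `n ≥ 1` with `[A1]`, `[A2]`, `[A3]`. `n = 1`: a point, area
`0`, empty fan sum. Step: `hull (n+1) = K ∪ T` by `[A3]`, all sets compact (so of finite volume, measurable), `T` the triangle
`a = y 0`, `b = y (n-1)`, `q = y n`. If `orient a b q = 0` then `volume T = 0` by `[A1]`. Otherwise `orient a b q > 0`, `a ≠ b`, all points of `K` satisfy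
`orient a b z ≤ 0` (weak convexity at the points `y i`, then on the hull), all points of `T` satisfy `orient a b z ≥ 0`, so `K ∩ T` is in the line, null by `[A2]`.
So `hArea (n+1) = hArea n + orient a b q / 2` and `fan (n+1) = fan n + orient (y 0) (y (n-1)) (y n) / 2`. -/
def S_A4 : Prop := ∀ (n : ℕ) (y : ℕ → ℂ), 1 ≤ n → WCvx n y → hArea (pts n y) = fan n y

/-- [A4b] Fan sum = shoelace sum for a periodic sequence. Proof: `orient (y 0) (y j) (y (j+1)) = cr (y 0) (y j) + cr (y j) (y (j+1)) - cr (y 0) (y (j+1))`;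
telescoping: the sum over `j < n - 1` is `∑_{j<n-1} cr (y j) (y (j+1)) - cr (y 0) (y (n-1))` (as `cr (y 0) (y 0) = 0`), and `cr (y (n-1)) (y n) = cr (y (n-1)) (y 0)`. -/
def S_A4b : Prop := ∀ (n : ℕ) (z : ℤ → ℂ), 1 ≤ n → Per n z → fan n (fun i => z i) = sh n z

/-- [A4c] Proof: `WCvx n (fun i => z i)` follows from `CvxW` (`0 ≤ i < j < k < n ≤ i + n`), `Set.range (fun i : Fin n => z i) = pts n (fun i => z i)`, `[A4]`, `[A4b]`. -/
def S_A4c : Prop := ∀ (n : ℕ) (z : ℤ → ℂ), 1 ≤ n → Per n z → CvxW n z →
  hArea (Set.range (fun i : Fin n => z i)) = sh n z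

/-- [A5a] Minimal subset with the same hull. Proof: among all `T ⊆ S` with `convexHull T = convexHull S` take one of least cardinality
(`Finset.exists_min_image` on `S.powerset.filter ..`). If `z ∈ T` were in `convexHull (T \ {z})`, then `T ⊆ convexHull (T \ {z})` and `T \ {z}` has the same
hull: contradiction. -/
def S_A5a : Prop := ∀ S : Finset ℂ, ∃ T : Finset ℂ, T ⊆ S ∧
  convexHull ℝ (T : Set ℂ) = convexHull ℝ (S : Set ℂ) ∧ ∀ z ∈ T, z ∉ convexHull ℝ ((T.erase z : Finset ℂ) : Set ℂ)

/-- [A5b] Points in convex position can be ordered counterclockwise. Proof: Let `e ∈ T` be lexicographically smallest for `(re, im)`. For `z ∈ T`, `z ≠ e`: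
`z - e` has positive real part, or real part `0` and positive imaginary part, so `θ z := arg (z - e) ∈ (-π/2, π/2]`. If `θ z = θ z'` with `z ≠ z'`, then `e, z, z'` are on a
ray, and the nearer of `z, z'` is in the segment from `e` to the other: contradiction to convex position. So `θ` is injective on `T \ {e}`; list
`T \ {e} = {z 1, ..., z r}` with increasing `θ` (for instance with `Finset.orderEmbOfFin` of the image `θ (T \ {e})`), `y 0 = e`, `y i = z i`, `r = card T - 1`. For `1 ≤ i < j ≤ r`
`orient e (z i) (z j) = |z i - e| |z j - e| sin (θ (z j) - θ (z i)) > 0`. For `1 ≤ i < j < k`: put `D = orient e (z i) (z k) > 0`; if `orient (z i) (z j) (z k) ≤ 0` then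
`z j = (-orient (z i) (z j) (z k) / D) e + (orient e (z j) (z k) / D) (z i) + (orient e (z i) (z j) / D) (z k)` is a convex combination of other points of `T`
(coefficients `≥ 0`, sum `1`: identity `D = orient e (z i) (z j) + orient e (z j) (z k) - orient (z i) (z j) (z k)`): contradiction. -/
def S_A5b : Prop := ∀ T : Finset ℂ, T.Nonempty → (∀ z ∈ T, z ∉ convexHull ℝ ((T.erase z : Finset ℂ) : Set ℂ)) →
  ∃ y : ℕ → ℂ, (∀ i < T.card, y i ∈ T) ∧ (∀ z ∈ T, ∃ i < T.card, z = y i) ∧
    (∀ i j : ℕ, i < T.card → j < T.card → y i = y j → i = j) ∧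
    ∀ i j k : ℕ, i < j → j < k → k < T.card → 0 < orient (y i) (y j) (y k)

/-- [A5] Every finite family has a weakly convex enumeration with the same hull. Proof: `T` from `[A5a]` for `S = image v univ`, sequence `w` from `[A5b]`, `c = card T ≤ n`, `c ≥ 1`.
Put `y i = w (min i (c-1))` (repeat the last point). For `i < j < k < n`: if `k ≤ c - 1` (or after taking minima the three indices are distinct) use `[A5b]`; otherwise two
consecutive ones coincide and `orient = 0`. The hulls agree: `pts n y = T`. If `y (n-1) = y 0` then `c = 1` (injectivity), the hull is a point and the area `0`. -/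
def S_A5 : Prop := ∀ (n : ℕ) (v : Fin n → ℂ), 1 ≤ n → ∃ y : ℕ → ℂ, WCvx n y ∧ (∀ i < n, y i ∈ Set.range v) ∧
  convexHull ℝ (pts n y) = convexHull ℝ (Set.range v) ∧ (0 < hArea (Set.range v) → y (n - 1) ≠ y 0)

/-- [A6] Pushing out a point beyond an edge. Proof: take `y` from `[A5]`, `b = y 0`, `a = y (n-1)`, `a ≠ b`, `L = ‖a - b‖ > 0`. All points `z` of
`K = hull (range v)` satisfy `orient b z a ≥ 0`, i.e. `orient a b z ≥ 0` (weak convexity of `y` with the triples `0 < j < n-1`, then the hull). Let `μ = (a+b)/2`,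
`q = μ - t I (b - a)` with small `t > 0`. For each `w = v i`: `‖μ - w‖² = ‖a-w‖²/2 + ‖b-w‖²/2 - L²/4 ≤ 1 - L²/4`, so `‖q - w‖ ≤ sqrt (1 - L²/4) + t L ≤ 1` for `t` small
(`sqrt (1-x) ≤ 1 - x/2`: `t = L/8` works; note `L ≤ 1`). `orient a b q = cr (b-a) (q - a) = -t L² < 0`. The triangle `T = hull {a,b,q}` has volume `t L²/2 > 0` by `[A1]` and lies in
`{orient a b z ≤ 0}`, so `K ∩ T` is null by `[A2]`, and `K ∪ T ⊆ hull (insert q (range v))`: volumes (finite, compact sets): `≥ vol K + t L² / 2 > vol K`. -/
def S_A6 : Prop := ∀ (n : ℕ) (v : Fin n → ℂ), 1 ≤ n → (∀ i j, dist (v i) (v j) ≤ 1) → 0 < hArea (Set.range v) →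
  ∃ q : ℂ, (∀ i, dist q (v i) ≤ 1) ∧ hArea (Set.range v) < hArea (insert q (Set.range v))

/-- [A7] The supremum is a maximum. Proof: Let `C` be the set of `y : Fin n → ℂ` with `y 0 = 0`, pairwise distances `≤ 1` and weakly convex (all `orient (y i) (y j) (y k) ≥ 0` for `i<j<k`): closed and
bounded (`‖y i‖ ≤ 1`) in the finite-dimensional space `Fin n → ℂ`, hence compact; nonempty (constant `0`). The fan sum is a continuous function `F` of `y ∈ Fin n → ℂ`; let `y*` maximise it on `C`.
For `y ∈ C`: `F y = hArea (range y)` by `[A4]` (extend `y` to `ℕ → ℂ` arbitrarily beyond `n`). For every small `v : Fin n → ℂ` there is by `[A5]` a weakly convex enumeration `y` with the same hull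
(and points in the range of `v`, hence small); translating by `-y 0` (hull area translation invariant: `convexHull` commutes with translation, `measure_preimage_add`) gives a member of `C`; so
`hArea (range v) ≤ F y* = hArea (range y*)`. Hence the set in the definition of `smallArea n` has the greatest element `hArea (range y*)` and `sSup` is equal to it. -/
def S_A7 : Prop := ∀ n : ℕ, 1 ≤ n →
  (∃ v : Fin n → ℂ, (∀ i j, dist (v i) (v j) ≤ 1) ∧ hArea (Set.range v) = smallArea n) ∧
  (∀ v : Fin n → ℂ, (∀ i j, dist (v i) (v j) ≤ 1) → hArea (Set.range v) ≤ smallArea n)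

/-- [Apos] Proof: three vertices of an equilateral triangle with side `1`, the other points repeated: area `√3/4 > 0` by `[A1]`; `[A7]`. -/
def S_Apos : Prop := ∀ n : ℕ, 3 ≤ n → 0 < smallArea n

/-- [A8] In a maximal configuration no three points are collinear. Proof: let `i, j, k` be distinct with `orient (v i) (v j) (v k) = 0`. Three collinear points (possibly coinciding): one of them, say `v k`, lies in
the segment of the other two, `v i`, `v j` (rename). Let `v' = Function.update v k (v i)`: its range is the set of the `v l`, `l ≠ k`; it is small and has the same hull as `range v`, so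
`hArea (range v') = smallArea n > 0` (`[Apos]`). `[A6]` gives `q` at distance `≤ 1` from all `v' l`. Then `v'' = Function.update v' k q` is small and `range v'' = insert q (range v')` (because `v' k = v i = v' i`, `i ≠ k`),
so `hArea (range v'') > smallArea n`, contradiction to `[A7]`. -/
def S_A8 : Prop := ∀ (n : ℕ) (v : Fin n → ℂ), 3 ≤ n → (∀ i j, dist (v i) (v j) ≤ 1) →
  hArea (Set.range v) = smallArea n → ∀ i j k : Fin n, i ≠ j → j ≠ k → i ≠ k → orient (v i) (v j) (v k) ≠ 0

/-- [A10] A weakly convex small periodic sequence with maximal area is strictly convex. Proof: let `v i = z i` for `i : Fin n`; small, and `hArea (range v) = sh n z = smallArea n` by `[A4c]`. For `i < j < k < i + n` the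
residues of `i, j, k` modulo `n` are distinct; `z` at an integer is `v` at its residue; so `orient (z i) (z j) (z k) ≠ 0` by `[A8]`, and it is `≥ 0`. -/
def S_A10 : Prop := ∀ (n : ℕ) (z : ℤ → ℂ), 3 ≤ n → Per n z → CvxW n z → Small z → sh n z = smallArea n → Cvx n z

/-- [A9] Proof. Every `Per, Cvx, Small` sequence `z` has `sh n z = hArea (range over Fin n) ≤ smallArea n` by `[A4c]` (`Cvx → CvxW`) and `[A7]`. Existence of one with equality: `v` from `[A7]`, `y` its weakly convex
enumeration from `[A5]` (same hull, small); extend periodically: `z k = y (k mod n)`. `z` is `CvxW`: for `i < j < k < i + n` the residues are a cyclic rotation of an increasing triple, and `orient` is invariant under rotation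
(`orient_rot`); precisely, shift by a multiple of `n` so that `0 ≤ i < n`; then either all three are `< n`, or `i, j < n ≤ k` (residues `k - n < i < j`), or `i < n ≤ j < k` (residues `j - n < k - n < i`). By `[A4]`, `[A4b]`:
`sh n z = hArea (pts n y) = smallArea n`, and `[A10]` makes it strictly convex. So it is `Opt`, and any `Opt` sequence has the same (maximal) area. -/
def S_A9 : Prop := ∀ n : ℕ, 3 ≤ n → (∃ y, Opt n y) ∧ ∀ y, Opt n y → sh n y = smallArea n

/-- [R1] The regular `N`-gon. Proof: for angles `x < y < z < x + 2π`: `orient (R e^{ix}) (R e^{iy}) (R e^{iz}) = 4 R² sin((y-x)/2) sin((z-y)/2) sin((z-x)/2) > 0`. Area: `fan = (1/2) (∑_{k<N-1} cr (y k) (y (k+1)) + cr (y (N-1)) (y 0))`, every term is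
`R² sin (2π/N)`. (Or use `[A4b]` for the periodic extension.) -/
def S_R1 : Prop := ∀ (N : ℕ) (R : ℝ), 3 ≤ N → 0 < R →
  WCvx N (fun k : ℕ => (R : ℂ) * Complex.exp ((2 * Real.pi * k / N : ℝ) * Complex.I)) ∧
  fan N (fun k : ℕ => (R : ℂ) * Complex.exp ((2 * Real.pi * k / N : ℝ) * Complex.I)) = N * R ^ 2 * Real.sin (2 * Real.pi / N) / 2

/-- [R2] Distances. `R = 1/(2 cos (π/(2N)))`, `v k = R e^{2πik/N}`, `p = R - 1`. Proof: `‖v i - v j‖ = 2 R |sin (π (i-j)/N)|`, and for odd `N` the integer `i - j` satisfies `|sin (π (i-j)/N)| ≤ cos (π/(2N))`: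
with `d = |i - j| < N`: `d ≤ (N-1)/2` or `N - d ≤ (N-1)/2`, and `sin (π d/N) = sin (π (N-d)/N) ≤ sin (π (N-1)/(2N)) = cos (π/(2N))`. `‖p - v k‖² = (1-R)² + R² + 2 R (1-R) cos (2πk/N) = 1 - 2R(1-R)(1 - cos (2πk/N)) ≤ 1` since `1/2 < R ≤ 1`. -/
def S_R2 : Prop := ∀ N : ℕ, Odd N → 3 ≤ N → ∀ R : ℝ, R = 1 / (2 * Real.cos (Real.pi / (2 * N))) →
  (∀ i j : ℕ, i < N → j < N → ‖(R : ℂ) * Complex.exp ((2 * Real.pi * i / N : ℝ) * Complex.I) -
      (R : ℂ) * Complex.exp ((2 * Real.pi * j / N : ℝ) * Complex.I)‖ ≤ 1) ∧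
  (∀ k : ℕ, ‖((R : ℂ) - 1) - (R : ℂ) * Complex.exp ((2 * Real.pi * k / N : ℝ) * Complex.I)‖ ≤ 1)

/-- [R] Lower bound for the maximal area of an `(N+1)`-gon. Proof: `R = 1/(2 cos (π/(2N)))`, `v k = R e^{2πik/N}` (`k < N`), `p = R - 1 ∈ ℝ`, small by `[R2]`. Area of the hull of the `v k`: `N R² sin (2π/N)/2 = N ff (π/N)` by `[A4]`, `[R1]` (check:
`N sin(2x)/(8 cos²(x/2))` with `x = π/N`, `= (N/2) tan(x/2) cos x = N ff x` because `sin x = tan(x/2)(1 + cos x)`). All `v k` have real part `≥ -R cos (π/N)` (`N` odd), so this hull is in the half plane `re z ≥ -R cos (π/N)`. The triangle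
`v ((N-1)/2), p, v ((N+1)/2)`: these two vertices are `-R e^{∓iπ/N}`, real part `-R cos (π/N)`, and `p = R - 1 ≤ -R cos (π/N)` because `R (1 + cos (π/N)) = 2 R cos² (π/(2N)) = cos (π/(2N)) ≤ 1`; its area is `(1/2) (2R sin (π/N)) (1 - R - R cos (π/N)) =
sin (π/(2N)) (1 - cos (π/(2N))) = sin (π/(2N)) - sin (π/N)/2` (use `R sin (π/N) = sin (π/(2N))`). The two sets are separated by the line `re z = -R cos (π/N)` (null, `[A2]`), so the hull of all `N + 1` points has at least the sum of the areas; `[A1]`, `[A7]`. -/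
def S_R : Prop := ∀ N : ℕ, Odd N → 3 ≤ N →
  N * ff (Real.pi / N) + (Real.sin (Real.pi / (2 * N)) - Real.sin (Real.pi / N) / 2) ≤ smallArea (N + 1)

end Pool.Agent.Lib.MP_97284c_gt
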