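import Pool.Agent.Lib.MP_97284c_gt.Basic

/-!
# Largest small polygons (MP_97284c_gt). Statements, part S: the closed case and the refined isodiametric inequality
-/

namespace Pool.Agent.Lib.MP_97284c_gt

/-- [S1a] The staircase. Proof: for every `k` let `(I k, J k)` be the unit pair of class `k` (`Occ`), unique by `[C2]` (`uniq`). `(J k, I k + n)` is a unit pair of class `k + n` (`[UPs]`), so `Iper`, `Jper`. `[C3]` gives `step`, with `e k = 1` if `J` moves and `e k = -1` if `I` moves. `eper`: `I (k+n+1) - I (k+n) = J (k+1) - J k`. -/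
def S_S1a : Prop := ∀ (n : ℕ) (y : ℤ → ℂ), 3 ≤ n → Opt n y → (∀ k, Occ n y k) → ∃ I J e : ℤ → ℤ, Stair n y I J e

/-- [S1b] Proof: `I`, `J` are nondecreasing (`step`); for `k < l < k + n`: `I k ≤ I l ≤ I (k+n) = J k ≤ J l ≤ J (k+n) = I k + n`, and `I l + J l = l`. Let `p = y (I k)`, `q = y (I l)`, `r = y (J k)`, `s = y (J l)`. Identity `cr (r - p) (s - q) = orient p q r + orient r s p`. `orient p q r > 0` if `I k < I l < J k` (`Cvx`), otherwise `0`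
(two of the points are equal); `orient r s p > 0` if `J k < J l < I k + n` (`Cvx` for the triple `J k, J l, I k + n`, `y (I k + n) = p`), otherwise `0`. Both zero would mean `I l ∈ {I k, J k}` and `J l ∈ {J k, I k + n}`: `(I k, J k)` has `l = k`, `(J k, I k + n)` has `l = k + n`, `(I k, I k + n)` contradicts `J l < I l + n`, `(J k, J k)` contradicts `I l < J l`. -/
def S_S1b : Prop := ∀ (n : ℕ) (y : ℤ → ℂ) (I J e : ℤ → ℤ), 3 ≤ n → Per n y → Cvx n y → Stair n y I J e →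
  ∀ k l : ℤ, k < l → l < k + n → 0 < cr (Dv y I J k) (Dv y I J l)

/-- [S1c] The angles. Proof: `D k := Dv y I J k` is a unit vector; `D (k+n) = -D k` (`Iper, Jper, Per`). For each `k` one end is common, so `‖D (k+1) - D k‖ ≤ 1` (`Small`), `dt (D k) (D (k+1)) ≥ 1/2`, and `cr (D k) (D (k+1)) > 0` by `[S1b]` (`1 < n`). So `D (k+1) = e^{iβ k} D k` with a unique `β k ∈ (0, π/3]` (`β k = arccos (dt ..)`, or
`arg (D (k+1) / D k)`); `β (k+n) = β k` since `D (k+n+1)/D (k+n) = D (k+1)/D k`. Partial sums `s l = ∑_{k<l} β k`, `D l = e^{i s l} D 0`, `cr (D 0) (D l) = sin (s l) > 0` for `0 < l < n` (`[S1b]`). By induction `s l ∈ (0, π)` for `0 < l < n` (`s 1 = β 0 ≤ π/3`; `s (l+1) ∈ (0, π + π/3)` and `sin > 0`). So `s n ∈ (0, 4π/3]`, and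
`e^{i s n} D 0 = D n = -D 0`, so `s n = π`. -/
def S_S1c : Prop := ∀ (n : ℕ) (y : ℤ → ℂ) (I J e : ℤ → ℤ), 3 ≤ n → Per n y → Cvx n y → Small y → Stair n y I J e →
  ∃ β : ℤ → ℝ, Ang n y I J β

/-- [S3] Area along the staircase. Proof: `G` antiderivative of `g k = cr (y k) (y (k+1))` (`exists_antideriv`, `antideriv_per`). For every step `cr (y (I k)) (y (I (k+1))) = G (I (k+1)) - G (I k)`, the same for `J`. Telescoping: `G (I n) - G (I 0) + G (J n) - G (J 0) = G (J 0) - G (I 0) + G (I 0 + n) - G (J 0) = 2 sh n y` (`Iper 0`, `Jper 0`). -/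
def S_S3 : Prop := ∀ (n : ℕ) (y : ℤ → ℂ) (I J e : ℤ → ℤ), 3 ≤ n → Per n y → Stair n y I J e →
  sh n y = (∑ k ∈ Finset.range n, (cr (y (I k)) (y (I (k + 1))) + cr (y (J k)) (y (J (k + 1))))) / 2

/-- [S4] One cell. `C, C'` midpoints, `a = dt D C`, `b = dt (iD) C` and the same with primes, `T = tan (β/2)`. Proof. `C' - C = (ε/2) (D' - D)`. In the frame `D, iD`: `C = a D + b iD`, `D' - D = (cos β - 1) D + sin β · iD`. `(cr X X' + cr Y Y')/2 = cr C C' + cr D D'/4 = (ε/2) (a sin β + b (1 - cos β)) + sin β/4`.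
`a' = a cos β + b sin β + (ε/2) (1 - cos β)`, `b' = -a sin β + b cos β + (ε/2) sin β`. With `T (1 + cos β) = sin β`, `T sin β = 1 - cos β`, `ε² = 1` all three identities follow:
(1) `T (a + a') = a sin β + b (1 - cos β) + (ε/2) T (1 - cos β)`, `T (1 - cos β) = 2 T - sin β`. (2) from the formula of `a'`. (3) `a' cos β/ sin β - a / sin β = -a sin β + b cos β + (ε/2) T cos β = b' - (ε/2) (sin β - T cos β) = b' - (ε/2) T`. -/
def S_S4 : Prop := ∀ (X Y X' Y' : ℂ) (β ε : ℝ), ‖Y - X‖ = 1 → Y' - X' = Complex.exp (β * Complex.I) * (Y - X) →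
  0 < β → β < Real.pi → ((ε = 1 ∧ X' = X) ∨ (ε = -1 ∧ Y' = Y)) →
  ∀ a b a' b' : ℝ, a = dt (Y - X) ((X + Y) / 2) → b = dt (Complex.I * (Y - X)) ((X + Y) / 2) →
    a' = dt (Y' - X') ((X' + Y') / 2) → b' = dt (Complex.I * (Y' - X')) ((X' + Y') / 2) →
  (cr X X' + cr Y Y') / 2 = ff β + ε * Real.tan (β / 2) * (a + a') / 2 ∧
  a' / Real.sin β - a * (Real.cos β / Real.sin β) = b + ε * Real.tan (β / 2) / 2 ∧
  a' * (Real.cos β / Real.sin β) - a / Real.sin β = b' - ε * Real.tan (β / 2) / 2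

/-- [S5] The area as a sum minus a quadratic form. Proof: `a k = dt (D k) (C k)`, `C k = (y (I k) + y (J k))/2`, `b k = dt (i D k) (C k)`; `C (k+n) = C k`, `D (k+n) = -D k`, so `a (k+n) = -a k`. `[S4]` for each cell (`ε = e k`): second identity at the cell `k`, third at the cell `k - 1`; eliminating `b k`:
`a k (cot β(k-1) + cot β k) - a (k-1)/sin β(k-1) - a (k+1)/sin β k = -(e (k-1) T (k-1) + e k T k)/2`. Multiply by `c k` (antiperiodic) and sum over a period; the summands are periodic, so shift (`psum_shift`) the parts with index `k - 1`: second claim. With `c = a`: `Q := ∑ [cot β k (a k² + a (k+1)²) - 2 a k a (k+1)/sin β k] = -(1/2) ∑ a k (e (k-1) T (k-1) + e k T k) =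
-(1/2) ∑ e k T k (a k + a (k+1))`, and by `[S3]` and the first identity of `[S4]` `sh n y = ∑ ff (β k) + (1/2) ∑ e k T k (a k + a (k+1)) = ∑ ff (β k) - Q`. -/
def S_S5 : Prop := ∀ (n : ℕ) (y : ℤ → ℂ) (I J e : ℤ → ℤ) (β : ℤ → ℝ), 3 ≤ n → Per n y → Stair n y I J e → Ang n y I J β →
  ∃ a : ℤ → ℝ, (∀ k, a (k + n) = -a k) ∧
    (sh n y = (∑ k ∈ Finset.range n, ff (β k)) - ∑ k ∈ Finset.range n,
      (Real.cos (β k) / Real.sin (β k) * (a k ^ 2 + a (k + 1) ^ 2) - 2 * a k * a (k + 1) / Real.sin (β k))) ∧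
    (∀ c : ℤ → ℝ, (∀ k, c (k + n) = -c k) →
      ∑ k ∈ Finset.range n, (Real.cos (β k) / Real.sin (β k) * (a k * c k + a (k + 1) * c (k + 1))
        - (a k * c (k + 1) + a (k + 1) * c k) / Real.sin (β k)) =
      -(∑ k ∈ Finset.range n, c k * (e ((k : ℤ) - 1) * Real.tan (β ((k : ℤ) - 1) / 2) + e k * Real.tan (β k / 2))) / 2)

/-- [S6] Discrete Wirtinger inequality for antiperiodic sequences. Proof. `θ k = ∑_{j<k} β j`, `θ 0 = 0`, `θ n = π`; every `β k ∈ (0, π)` (`n ≥ 2`). Let `h k = x 0 cos (θ k)`, `u = x - h`: `u 0 = 0`, `u n = -x 0 + x 0 = 0`. Bilinear form `B(u,v) = ∑ [cot β (u v + u' v') - (u v' + u' v)/sin β]` (prime = index `k+1`). For `h`: `cot β h - h'/sin β = x 0 sin θ`,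
`cot β h' - h/sin β = -x 0 sin θ'` (addition formulas, `θ' = θ + β`), so `B(u,h) = x 0 ∑ (u sin θ - u' sin θ') = x 0 (u 0 sin θ 0 - u n sin θ n) = 0` and `B(h,h) = 0` in the same way. Hence `Q(x) = Q(u)`. For `0 < k < n - 1`: `cot β (u² + u'²) - 2 u u'/sin β = (φ' u - φ u')²/(sin β φ φ') - cot θ u² + cot θ' u'²` with `φ = sin θ > 0`, `φ' = sin θ' > 0`
(because `cot β - φ'/(φ sin β) = -cot θ`, `cot β - φ/(φ' sin β) = cot θ'`). So each cell is `≥ g (k+1) - g k` with `g k = cot θ k · u k²`; for `k = 0` (`u 0 = 0`, `θ 1 = β 0`) and `k = n-1` (`u n = 0`, `θ (n-1) = π - β (n-1)`) this holds with equality when `g 0 = g n = 0`. Sum: `Q(u) ≥ g n - g 0 = 0`. -/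
def S_S6 : Prop := ∀ (n : ℕ) (β x : ℕ → ℝ), 2 ≤ n → (∀ k < n, 0 < β k) → ∑ k ∈ Finset.range n, β k = Real.pi → x n = -x 0 →
  0 ≤ ∑ k ∈ Finset.range n,
    (Real.cos (β k) / Real.sin (β k) * (x k ^ 2 + x (k + 1) ^ 2) - 2 * x k * x (k + 1) / Real.sin (β k))

/-- [S7] Refined isodiametric inequality. Proof: `a` from `[S5]`, `Q` the quadratic form there, `B` its bilinear form. `c k = -e k β (k-1) β k / 4` if `e (k-1) = e k`, else `0`; antiperiodic. `[S6]` for `x = a - c`: `Q(a) ≥ 2 B(a,c) - Q(c)`. `2 B(a,c) = -∑ c k (e (k-1) T (k-1) + e k T k) = ∑_{SS} (β(k-1) β k/4) (T (k-1) + T k) ≥ (1/8) ∑_{SS} β(k-1) β k (β (k-1) + β k)`, since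
`T = tan (β/2) ≥ β/2`. In `Q(c)` the products `c k c (k+1)` are `≥ 0` (if both nodes are same-sign nodes, `e (k-1) = e k = e (k+1)`), `sin β k > 0`, and `cot β ≤ 1/β` (`β ∈ (0, π/3]`, `tan β ≥ β`), so `Q(c) ≤ ∑_k c k² (cot β (k-1) + cot β k)` (shift) `≤ ∑_{SS} (β(k-1)² β k²/16) (1/β (k-1) + 1/β k) = (1/16) ∑_{SS} β(k-1) β k (β (k-1) + β k)`. -/
def S_S7 : Prop := ∀ (n : ℕ) (y : ℤ → ℂ) (I J e : ℤ → ℤ) (β : ℤ → ℝ), 3 ≤ n → Per n y → Stair n y I J e → Ang n y I J β →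
  sh n y ≤ (∑ k ∈ Finset.range n, ff (β k)) -
    (∑ k ∈ SS n e, β ((k : ℤ) - 1) * β k * (β ((k : ℤ) - 1) + β k)) / 16

/-- [S8a] Proof: `x = β/2 ∈ [0, π/6]`: `tan x + tan³ x ≥ x + (4/3) x³ + (17/15) x⁵` from `tan x ≥ x + x³/3 + (2/15) x⁵` (derivative comparison), and `sin β ≥ β - β³/6 + β⁵/120 - β⁷/5040`. So the left side is at least `β (0.625 - β²/24 + (17/1920 + 1/240) β⁴ - β⁶/10080)`; with `s = β² ≤ π²/9 ≤ 1.0967` the bracket is `≥ 0.594`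
(decreasing in `s` on `[0, 1.0967]`; value at `1.0967` is `≥ 0.5948`). (`1/cos² = 1 + tan²`.) -/
def S_S8a : Prop := ∀ β : ℝ, 0 ≤ β → β ≤ Real.pi / 3 →
  594 / 1000 * β ≤ Real.sin β / 2 + Real.tan (β / 2) / (4 * Real.cos (β / 2) ^ 2)

/-- [S8] Proof: `g(β) = ff b + ff' b (β - b) - (99/1000) (β - b)² (β + 2b) - ff β`. `(β-b)²(β+2b) = β³ - 3b²β + 2b³`. `g(b) = 0`, `g'(β) = ff' b - (99/1000)(3β² - 3b²) - ff' β`, `g'(b) = 0`, `g''(β) = -(594/1000) β + sin β/2 + tan (β/2)/(4 cos² (β/2)) ≥ 0` on `[0, π/3]` by `[S8a]` (`ff'' β = -sin β/2 - tan (β/2)/(4 cos² (β/2))`). So `g'` is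
nondecreasing, `g' ≤ 0` left of `b`, `≥ 0` right of `b`, `g ≥ g(b) = 0`. (`b ≤ π/8 < π/3`.) -/
def S_S8 : Prop := ∀ β b : ℝ, 0 ≤ β → β ≤ Real.pi / 3 → 0 < b → b ≤ Real.pi / 3 →
  ff β ≤ ff b + ff' b * (β - b) - 99 / 1000 * ((β - b) ^ 2 * (β + 2 * b))

/-- [S9a] Proof: alternating type bounds on `[0, 1/2]`: `sin x ≤ x - x³/6 + x⁵/120`, `sin x ≥ x - x³/6`, `tan t ≥ t + t³/3 + 2t⁵/15`, and for the lower bound `sin x ≥ x - x³/6 + x⁵/120 - x⁷/5040` and `tan t ≤ t + t³/3 + (2/15) t⁵ + (1/15) t⁷` on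
`[0, 1/4]` (all by derivative comparison, or from `sin`, `cos` Taylor bounds; `ff x - (x/4 - 5x³/48) = x⁵/480 - 25x⁷/80640 - ...`). `sin y ≥ y - y³/6`, `1 - cos y ≥ y²/2 - y⁴/24`. -/
def S_S9a : Prop := ∀ x : ℝ, 0 ≤ x → x ≤ 1 / 2 →
  ff x ≤ x / 4 - 5 * x ^ 3 / 48 + x ^ 5 / 480 ∧ x / 4 - 5 * x ^ 3 / 48 ≤ ff x ∧
  x ^ 3 / 2 - x ^ 5 / 8 ≤ Real.sin x * (1 - Real.cos x)

/-- [S9] Proof: `x = π/n`, `X = π/(n-1)`, `y = π/(2(n-1))`, all `≤ 1/2` (`π/7 < 0.449`). `sin y - sin X/2 = sin y (1 - cos y)` (`X = 2y`). By `[S9a]` the left side is at most `π³/n³` times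
`(5/48) n (n²/(n-1)² - 1) - (n/(n-1))³/16 + π²/(480 n) + π² n³/(256 (n-1)⁵)` (the linear terms `π/4` cancel), and with `π² < 10` this is `≤ 17/100` for all `n ≥ 8` (value `0.1656` at `n = 8`, decreasing; polynomial inequality in `m = n - 8 ≥ 0` after clearing denominators). -/
def S_S9 : Prop := ∀ n : ℕ, n = 6 ∨ 8 ≤ n →
  n * ff (Real.pi / n) - (((n : ℝ) - 1) * ff (Real.pi / ((n : ℝ) - 1)) +
    (Real.sin (Real.pi / (2 * ((n : ℝ) - 1))) - Real.sin (Real.pi / ((n : ℝ) - 1)) / 2)) ≤ 17 / 100 * (Real.pi / n) ^ 3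

/-- [S10] Proof. First: with `s = x + x'`, `p = x x' ≤ s²/4`: `(x-1)²(x+2) = x³ - 3x + 2`, left side `= 0.0495 (s³ - 3ps - 3s + 4) + ps/16 = 0.0495 (s³ - 3s + 4) - 0.086 p s ≥ 0.028 s³ - 0.1485 s + 0.198 ≥ 0.06` for `s ≥ 0` (tangent at `s = 1.33`; minimum `0.0663`). Second: `(x-1)²(x+2) ≥ (9/16)(15/4) = 135/64` for `x ≥ 7/4`. -/
def S_S10 : Prop := (∀ x x' : ℝ, 0 ≤ x → 0 ≤ x' →
    3 / 50 ≤ 99 / 2000 * ((x - 1) ^ 2 * (x + 2) + (x' - 1) ^ 2 * (x' + 2)) + x * x' * (x + x') / 16) ∧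
  (∀ x : ℝ, 7 / 4 ≤ x → 17 / 100 < 99 / 1000 * ((x - 1) ^ 2 * (x + 2)))

/-- [SP] Parity. Proof: `∏_{k<n} e (k-1) e k = e (-1) e (n-1) ∏_{k<n-1} e k² = e (-1) e (n-1) = -1` (`e (n-1) = -e (-1)`), so the number of `k < n` with `e (k-1) ≠ e k` is odd; `n` is even, so the number with `e (k-1) = e k` is odd. -/
def S_SP : Prop := ∀ (n : ℕ) (e : ℤ → ℤ), Even n → 2 ≤ n → (∀ k, e k = 1 ∨ e k = -1) → (∀ k, e (k + n) = -e k) → Odd (SS n e).card

/-- [S11] Exactly one same-sign node, and no large angle. Proof: `b = π/n ≤ π/8`, `x k = β k / b`, `D(β) = (β - b)² (β + 2b) = b³ (x-1)² (x+2) ≥ 0`. `[S7]` and `[S8]`, `∑ (β k - b) = 0`: `sh n y ≤ n ff b - (99/1000) ∑ D(β k) - (1/16) ∑_{SS} β(k-1) β k (β(k-1) + β k)`. By `[S9]`, `[R]` with `N = n - 1` (odd) and `sh n y = smallArea n`: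
the total deficit `Δ = (99/1000) ∑ D(β k) + (1/16) ∑_{SS} (..)` is `≤ (17/100) b³`. `(99/1000) ∑_{k<n} D(β k) = (99/2000) ∑_{k<n} (D(β (k-1)) + D(β k)) ≥ (99/2000) ∑_{SS} (..)`, so by `[S10]` `Δ ≥ (3/50) b³ |SS|`, hence `|SS| ≤ 2`, and `|SS|` is odd by `[SP]`: `|SS| = 1`. If `β k ≥ 7b/4` for some `k` (mod `n` in `[0,n)`), `Δ ≥ (99/1000) D(β k) > (17/100) b³`, contradiction. -/
def S_S11 : Prop := ∀ (n : ℕ) (y : ℤ → ℂ) (I J e : ℤ → ℤ) (β : ℤ → ℝ), Even n → 6 ≤ n → Per n y → Stair n y I J e → Ang n y I J β →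
  sh n y = smallArea n → (SS n e).card = 1 ∧ (∀ k, β k < 7 * Real.pi / (4 * n)) ∧ ∀ k, β k + β (k + 1) ≤ Real.pi / 2

end Pool.Agent.Lib.MP_97284c_gt
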