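import Pool.Agent.Lib.MP_97284c_gt.Basic

/-!
# Largest small polygons (MP_97284c_gt). Statements, parts P and C: variations, unit distance graph

Every `S_xx : Prop` is one independent piece with a complete proof in words; pieces named in a proof
may be used as hypotheses of the theorem.
-/

open MeasureTheory

namespace Pool.Agent.Lib.MP_97284c_gt

/-- [P0] Local maximality. Proof: by periodicity all conditions involve finitely many index tuples: for `z` periodic, `Cvx n z` holds iff it holds for the triples with `0 ≤ i < n`, `i < j < k < i + n`; `Small z` iff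
`‖z i - z j‖ ≤ 1` for `0 ≤ i < n`, `i < j < i + n`. The finitely many numbers `orient (y i) (y j) (y k) > 0` and `1 - ‖y i - y j‖ > 0` (non-unit pairs) are bounded below by some `c > 0`; these quantities depend
continuously on `z` (for `‖z k - y k‖ < δ` and all `‖y k‖ ≤ B`: `|orient z - orient y| ≤ 8 B δ + 8 δ²`, `|‖z i - z j‖ - ‖y i - y j‖| ≤ 2 δ`); so for small `δ` such a `z` is `Cvx` and `Small`, and `Opt` gives `sh n z ≤ sh n y`. -/
def S_P0 : Prop := ∀ (n : ℕ) (y : ℤ → ℂ), 1 ≤ n → Opt n y → ∃ δ > 0, ∀ z : ℤ → ℂ, Per n z →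
  (∀ k, ‖z k - y k‖ < δ) → (∀ i j, UP n y i j → ‖z i - z j‖ ≤ 1) → sh n z ≤ sh n y

/-- [P1] First variation. Proof: let `ε > 0`, `η' k = η k - ε • y k`. For a unit pair: `dt (y i - y j) (η' i - η' j) = dt (y i - y j) (η i - η j) - ε ≤ -ε`. For `z = y + t η'`, `t > 0`: `‖z i - z j‖² = 1 + 2 t dt(..) + t² ‖η' i - η' j‖²
≤ 1 - 2 t ε + t² C ≤ 1` for `t ≤ 2 ε / C` (`C` a bound for the finitely many values). By `[P0]` `sh n z ≤ sh n y` for all small `t > 0`. `sh n (y + t η') = sh n y + t Bf n y η' + t² sh n η'` (expand), so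
`Bf n y η' + t sh n η' ≤ 0`; `t → 0`: `Bf n y η' ≤ 0`. And `Bf n y η' = Bf n y η - 2 ε sh n y` (`Bf n y y = 2 sh n y`). Now `ε → 0`. -/
def S_P1 : Prop := ∀ (n : ℕ) (y η : ℤ → ℂ), 1 ≤ n → Opt n y → Per n η →
  (∀ i j, UP n y i j → dt (y i - y j) (η i - η j) ≤ 0) → Bf n y η ≤ 0

/-- [P2] Moving one residue class. For `3 ≤ n` and the direction `η` equal to `ξ` at the indices `≡ k (mod n)` and `0` elsewhere,
`Bf n y η = cr ξ (y (k+1) - y (k-1)) / 2`. Proof: the summand is `n`-periodic in `j`, so (`psum_shift`) sum over `j = k - 1, ..., k + n - 2`; only `j = k - 1` (term `cr (y (k-1)) ξ`) and `j = k` (term `cr ξ (y (k+1))`) are nonzero. -/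
def S_P2 : Prop := ∀ (n : ℕ) (y : ℤ → ℂ) (k : ℤ) (ξ : ℂ), 3 ≤ n → Per n y →
  Bf n y (fun j => if (n : ℤ) ∣ j - k then ξ else 0) = cr ξ (y (k + 1) - y (k - 1)) / 2

/-- [C0] In a strictly convex quadrilateral the sum of two opposite sides is less than the sum of the diagonals. Proof: the diagonals cross: with `A = orient a b d = orient d a b > 0`, `B = orient b c d > 0` put
`s = A / (A + B) ∈ (0,1)`, `x = a + s (c - a)`. `orient b d x` is affine in `x`, equal to `orient b d a = A > 0` at `a` and `orient b d c = -B` at `c`, so `0` at `x`: `x = b + t (d - b)`; `t ∈ (0,1)` because similarly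
`orient a c b = -orient a b c < 0`, `orient a c d = orient c d a > 0` and `orient a c x = 0` gives `(1-t) orient a c b + t orient a c d = 0`. Then `‖a - b‖ < ‖a - x‖ + ‖x - b‖` (strict: equality in the triangle inequality would make `a, x, b` and hence `a, b, c` collinear), `‖c - d‖ ≤ ‖c - x‖ + ‖x - d‖`, and
`‖a - x‖ + ‖x - c‖ = ‖a - c‖`, `‖b - x‖ + ‖x - d‖ = ‖b - d‖`. -/
def S_C0 : Prop := ∀ a b c d : ℂ, 0 < orient a b c → 0 < orient b c d → 0 < orient c d a → 0 < orient d a b →
  ‖a - b‖ + ‖c - d‖ < ‖a - c‖ + ‖b - d‖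

/-- [C1] No nested unit pairs. Proof: `i < i' < j' < j < i + n`. Apply `[C0]` to `(a,b,c,d) = (y i', y j', y j, y i)` (cyclic order `i', j', j, i + n`; all four orientations are positive by `Cvx`, using `y (i+n) = y i` and `orient_rot`):
`‖y i' - y j'‖ + ‖y j - y i‖ = 2 < ‖y i' - y j‖ + ‖y j' - y i‖ ≤ 2` by `Small`: contradiction. -/
def S_C1 : Prop := ∀ (n : ℕ) (y : ℤ → ℂ), Per n y → Cvx n y → Small y →
  ∀ i j i' j' : ℤ, UP n y i j → UP n y i' j' → i < i' → j' < j → False

/-- [C2] At most one unit pair per class. Proof: if `i < i'` then `j' < j`: `[C1]`; if `i' < i` then `j < j'`: `[C1]` with the roles exchanged. -/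
def S_C2 : Prop := ∀ (n : ℕ) (y : ℤ → ℂ), Per n y → Cvx n y → Small y →
  ∀ i j i' j' : ℤ, UP n y i j → UP n y i' j' → i + j = i' + j' → i = i' ∧ j = j'

/-- [C3] Unit pairs of consecutive classes share an end. Proof: `s = i' - i`, `j' = j + 1 - s`. `s ≥ 2`: `i < i'`, `j' < j`; `s ≤ -1`: `i' < i`, `j < j'`: both impossible by `[C1]`. -/
def S_C3 : Prop := ∀ (n : ℕ) (y : ℤ → ℂ), Per n y → Cvx n y → Small y →
  ∀ i j i' j' : ℤ, UP n y i j → UP n y i' j' → i' + j' = i + j + 1 →
    (i' = i ∧ j' = j + 1) ∨ (i' = i + 1 ∧ j' = j)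

/-- [UPs] The other representation of a unit pair. Proof: `j < i + n`, `i + n < j + n`, `y (i+n) = y i`, `norm_sub_rev`. -/
def S_UPs : Prop := ∀ (n : ℕ) (y : ℤ → ℂ), Per n y →
  (∀ i j, UP n y i j → UP n y j (i + n)) ∧ (∀ i j, UP n y i j → UP n y (j - n) i) ∧
  (∀ i j t : ℤ, UP n y i j → UP n y (i + t * n) (j + t * n)) ∧ (∀ k, Occ n y k ↔ Occ n y (k + n))

/-- [C4] Every vertex has a unit neighbour. Proof: if not, let `η = ξ` at the indices `≡ k`, `0` elsewhere. For a unit pair `(i,j)` neither `i` nor `j` is `≡ k` mod `n` (otherwise `k` has a unit neighbour: shift by a multiple of `n`, if `j ≡ k` use `[UPs]`;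
note that `i ≢ j`), so the condition of `[P1]` holds and `Bf n y η ≤ 0`; by `[P2]` `cr ξ (y (k+1) - y (k-1)) ≤ 0` for all `ξ ∈ ℂ`; so `y (k+1) = y (k-1)`; but `orient (y (k-1)) (y k) (y (k+1)) > 0` by `Cvx` (`k + 1 < k - 1 + n`, `n ≥ 3`), contradiction. -/
def S_C4 : Prop := ∀ (n : ℕ) (y : ℤ → ℂ), 3 ≤ n → Opt n y → ∀ k : ℤ, ∃ w : ℤ, UP n y k w

/-- [C3b] Across an empty class both ends move. Proof: `s = i' - i`, `j' = j + 2 - s`; `s < 0` or `s > 2` is impossible by `[C1]`. `s = 0`: pairs `(i, j)`, `(i, j+2)`. The vertex `j + 1` has a unit neighbour (`[C4]`; using `[UPs]` choose it on the left): `UP n y w (j+1)` for some `w`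
with `j + 1 - n < w < j + 1`. `w = i`: class `i + j + 1` occupied, contradiction. `w < i`: `(w, j+1)` and `(i, j)` nested. `w > i`: `(i, j+2)` and `(w, j+1)` nested. `s = 2`: pairs `(i,j)`, `(i+2, j)`; the vertex `i + 1` has a unit neighbour `w`: `UP n y (i+1) w`. `w = j`: class occupied.
`w > j`: `(i+1, w)` and `(i+2, j)` nested; `w < j`: `(i, j)` and `(i+1, w)` nested. -/
def S_C3b : Prop := ∀ (n : ℕ) (y : ℤ → ℂ), 3 ≤ n → Opt n y →
  ∀ i j i' j' : ℤ, UP n y i j → UP n y i' j' → i' + j' = i + j + 2 → ¬ Occ n y (i + j + 1) →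
    i' = i + 1 ∧ j' = j + 1

/-- [C5a] Translating a union of components does not change the area. Proof: `η = u` on `S`, `0` off `S`; for a unit pair `η i = η j`, so `[P1]` for `η` and `-η` gives `Bf n y η = 0`. `sh n (y + t η) = sh n y + t Bf n y η + t² sh n η` and `sh n η = 0` since `cr u u = cr u 0 = 0`. -/
def S_C5a : Prop := ∀ (n : ℕ) (y : ℤ → ℂ) (S : Set ℤ) (u : ℂ), 1 ≤ n → Opt n y → (∀ k : ℤ, k ∈ S ↔ k + n ∈ S) →
  (∀ i j : ℤ, UP n y i j → (i ∈ S ↔ j ∈ S)) → ∀ t : ℝ, sh n (fun k => y k + t • Set.indicator S (fun _ => u) k) = sh n y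

/-- [C5b] If the unit distance graph is not connected, another maximiser has more unit pairs. Proof: let `S` be periodic, closed under unit pairs, `S ≠ ∅`, `S ≠ univ`. Put `z t = y + t 1_S` (direction `u = 1`). `z t` is periodic, `sh n (z t) = sh n y = smallArea n` for all `t` (`[C5a]`, `[A9]`),
unit pairs stay unit pairs (they do not cross `S`). Let `B` be the set of `t ≥ 0` such that `Cvx n (z t)` and `‖z t i - z t j‖ < 1` for all `i ∈ S`, `j ∉ S`. By periodicity these are finitely many strict inequalities for continuous functions of `t`, so `B` is open in `[0,∞)`; `0 ∈ B`, since a pair at distance `1` with `i ∈ S`, `j ∉ S`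
would be (up to shifts, `i ≢ j`) a unit pair crossing `S`. `B` is bounded: for some `i ∈ S`, `j ∉ S`: `‖z t i - z t j‖ ≥ t - ‖y i - y j‖`. Let `T = inf ([0,∞) \ B)`; then `T ∉ B`, `[0,T) ⊆ B`, `T > 0`. By continuity (limit `t → T-`) `z T` is `CvxW` and `Small` (pairs inside `S` or inside the complement keep their distance; cross pairs `≤ 1`);
`sh n (z T) = smallArea n`, so `[A10]` gives `Cvx n (z T)`; thus `Opt n (z T)` (the area is maximal, `[A9]`). As `T ∉ B` some cross pair has distance `≥ 1`, hence `= 1`. Represent it as `UP n (z T) i j` by shifting one index by a multiple of `n` (`S` is periodic) and exchanging if necessary. -/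
def S_C5b : Prop := ∀ (n : ℕ) (y : ℤ → ℂ) (S : Set ℤ), 3 ≤ n → Opt n y → (∀ k : ℤ, k ∈ S ↔ k + n ∈ S) →
  (∀ i j : ℤ, UP n y i j → (i ∈ S ↔ j ∈ S)) → S ≠ ∅ → S ≠ Set.univ →
  ∃ z, Opt n z ∧ (∀ i j, UP n y i j → UP n z i j) ∧ ∃ i j, UP n z i j ∧ ¬ (i ∈ S ↔ j ∈ S)

/-- [C5] There is a maximiser with connected unit distance graph. Proof: among the `Opt` sequences (`[A9]`) choose `y` with the largest number `c(y)` of occupied classes in `{0, ..., n-1}` (`c ≤ n`). If not `Conn`, there is `S` as in `[C5b]`, giving `z` and a new unit pair `(i,j)` crossing `S`. Every occupied class of `y` is occupied for `z`. The class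
`k = i + j` is not occupied for `y`: otherwise `UP n y i' j'` with `i' + j' = i + j`, then `UP n z i' j'`, so `(i',j') = (i,j)` by `[C2]` for `z`, but `(i',j')` does not cross `S`. Shifting `k` by a multiple of `n` into `{0..n-1}` (`[UPs]`) we get `c(z) > c(y)`, contradiction. -/
def S_C5 : Prop := ∀ n : ℕ, 3 ≤ n → ∃ y, Opt n y ∧ Conn n y

/-- [C6] Connected: at most one residue class is empty. Proof: let `G` be the simple graph on `ZMod n` with `a` adjacent to `b` iff there are `i j : ℤ` with `(i : ZMod n) = a`, `(j : ZMod n) = b` and `UP n y i j` (symmetric by `[UPs]`; loopless as `0 < j - i < n`). `G` is connected: the preimage in `ℤ` of a connected component is a periodic set closed under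
unit pairs, nonempty, so everything by `Conn`. Hence `G` has at least `n - 1` edges (`SimpleGraph.Connected.card_vert_le_card_edgeSet_add_one`). The map `{a,b} ↦ a + b ∈ ZMod n` is injective on edges: if `i + j ≡ i' + j'` mod `n` for unit pairs, apply `[UPs]` (`(i,j) → (j, i+n)` raises the sum by `n`, and its inverse) until the
sums are equal, then `[C2]` gives the same pair of residues. So at least `n - 1` elements of `ZMod n` are classes of unit pairs, at most one is not; pick `k₀` accordingly. (`Occ` depends only on the residue: `[UPs]`.) -/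
def S_C6 : Prop := ∀ (n : ℕ) (y : ℤ → ℂ), 3 ≤ n → Opt n y → Conn n y →
  ∃ k₀ : ℤ, ∀ k : ℤ, ¬ ((n : ℤ) ∣ k - k₀) → Occ n y k

end Pool.Agent.Lib.MP_97284c_gt
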