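import Pool.Agent.Lib.MP_97284c_gt.Basic

/-!
# Largest small polygons (MP_97284c_gt). Statements, parts N and F: the star and its Euler-Lagrange equations

Notation in the docstrings: `N = n - 1 = 2m - 1`, `c k = cos (hb N α k)`, `s k = sin (hb N α k)`.
-/

namespace Pool.Agent.Lib.MP_97284c_gt

/-- [N1] Position of the same-sign node. Proof: `SS n e = {r}`; all integers `k` with `e (k-1) = e k` are `≡ r` mod `n` (`eper`). Let `k₀ = r` if `e r = 1` and `k₀ = r + n` if `e r = -1`; then `e (k₀ - 1) = e k₀ = 1`, and `e (k₀ + j) = (-1)^j` for `0 ≤ j < n` (`e` changes sign at every other node). So `J` moves at the even steps, `I` at the odd steps: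
`I (k₀ + 2r) = i₀ + r`, `J (k₀ + 2r) = j₀ + r`, `I (k₀ + 2r + 1) = i₀ + r`, `J (k₀ + 2r + 1) = j₀ + r + 1`. For `2r = n = 2m`: `I (k₀ + n) = J k₀` gives `j₀ = i₀ + m`. -/
def S_N1 : Prop := ∀ (n m : ℕ) (y : ℤ → ℂ) (I J e : ℤ → ℤ), n = 2 * m → 2 ≤ m → Stair n y I J e → (SS n e).card = 1 →
  ∃ k₀ : ℤ, e (k₀ - 1) = 1 ∧ e k₀ = 1 ∧
    (∀ r : ℕ, r ≤ m → I (k₀ + 2 * r) = I k₀ + r ∧ J (k₀ + 2 * r) = I k₀ + m + r) ∧
    (∀ r : ℕ, r < m → I (k₀ + 2 * r + 1) = I k₀ + r ∧ J (k₀ + 2 * r + 1) = I k₀ + m + r + 1)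

/-- [N2] The unit vectors of the star. `W k = y (idx m i₀ k)`, `p = y (i₀ + m)`, `i₀ = I k₀`. Proof: `W` has period `2m - 1`. For `0 ≤ r < 2m - 1` even, `r = 2q`: `W r = y (i₀ + q)`, and `W (r+1) = y (i₀ + m + 1 + q)` (for `r + 1 = 2m - 1`, `q = m - 1`, it is `W 0 = y i₀ = y (i₀ + 2m)`), so by `[N1]` `Dv (k₀ + r + 1) = y (i₀ + m + q + 1) - y (i₀ + q) = W (r+1) - W r`.
For `r = 2q + 1`: `W r = y (i₀ + m + 1 + q)`, `W (r+1) = y (i₀ + q + 1)`, `Dv (k₀ + r + 1) = Dv (k₀ + 2(q+1)) = y (i₀ + m + q + 1) - y (i₀ + q + 1) = -(W (r+1) - W r)`. `Dv k₀ = y (i₀ + m) - y i₀`. `Dv (k₀ - 1) = -Dv (k₀ - 1 + n) = -(W (2m-1) - W (2m-2)) = W (-1) - W 0`. -/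
def S_N2 : Prop := ∀ (n m : ℕ) (y : ℤ → ℂ) (I J e : ℤ → ℤ) (k₀ : ℤ), n = 2 * m → 2 ≤ m → Per n y → Stair n y I J e →
  (∀ r : ℕ, r ≤ m → I (k₀ + 2 * r) = I k₀ + r ∧ J (k₀ + 2 * r) = I k₀ + m + r) →
  (∀ r : ℕ, r < m → I (k₀ + 2 * r + 1) = I k₀ + r ∧ J (k₀ + 2 * r + 1) = I k₀ + m + r + 1) →
  (∀ k : ℤ, idx m (I k₀) (k + (2 * m - 1)) = idx m (I k₀) k) ∧
  (∀ r : ℕ, r < 2 * m - 1 → Dv y I J (k₀ + r + 1) = (-1) ^ r * (y (idx m (I k₀) (r + 1)) - y (idx m (I k₀) r))) ∧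
  Dv y I J k₀ = y (I k₀ + m) - y (idx m (I k₀) 0) ∧
  Dv y I J (k₀ - 1) = y (idx m (I k₀) (-1)) - y (idx m (I k₀) 0)

/-- [N3] Area of the star. Proof: both sides are sums of `cr` over the oriented edges of the polygon. `2 sh n y = ∑_{j=i₀}^{i₀+2m-1} cr (y j) (y (j+1))` (`psum_shift`). For `k = 2q`, `0 ≤ q ≤ m - 2`: `cr (W k) (W (k+2)) = cr (y (i₀+q)) (y (i₀+q+1))`. For `k = 2q + 1`, `0 ≤ q ≤ m - 2`:
`cr (W k) (W (k+2)) = cr (y (i₀+m+1+q)) (y (i₀+m+2+q))` (for `q = m - 2`, `k + 2 = 2m - 1`, `W (k+2) = W 0 = y (i₀ + 2m)`). `k = 2m - 2`: `cr (W (2m-2)) (W (2m)) = cr (W (-1)) (W 1)`, cancelled in `St`. `cr (W (-1)) p = cr (y (i₀+m-1)) (y (i₀+m))`, `cr p (W 1) = cr (y (i₀+m)) (y (i₀+m+1))`. -/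
def S_N3 : Prop := ∀ (n m : ℕ) (y : ℤ → ℂ) (i₀ : ℤ), n = 2 * m → 2 ≤ m → Per n y →
  St (2 * m - 1) (fun k => y (idx m i₀ k)) (y (i₀ + m)) = sh n y

/-- [N4] Stationarity of the star. Proof: given `η` (period `N = 2m-1`) and `ζ`, define the `n`-periodic `η'` by `η' (i₀ + q) = η (2q)` (`0 ≤ q < m`), `η' (i₀ + m) = ζ`, `η' (i₀ + m + 1 + q) = η (2q+1)` (`0 ≤ q ≤ m - 2`); then `η' (idx m i₀ k) = η k` for all `k`. As the area identity `[N3]` holds for all periodic sequences, it holds for `y + t η'`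
for all real `t`; comparing the coefficients of `t`: `Lst N W p η ζ = Bf n y η'`. By `[P1]` it suffices that `dt (y i - y j) (η' i - η' j) ≤ 0` for all unit pairs: by `uniq` they are `(I k, J k)`; modulo the shift `k → k + n` (`Iper, Jper`, which exchanges the two ends modulo `n`) `k₀ ≤ k < k₀ + n`; `k = k₀` is the pair `W 0, p`; `k = k₀ + r + 1`, `0 ≤ r < N`, is the pair
`W r, W (r+1)` (`[N1]`, `[N2]`); `dt (-a) (-b) = dt a b`. -/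
def S_N4 : Prop := ∀ (n m : ℕ) (y : ℤ → ℂ) (I J e : ℤ → ℤ) (k₀ : ℤ), n = 2 * m → 2 ≤ m → Opt n y → Stair n y I J e →
  (∀ r : ℕ, r ≤ m → I (k₀ + 2 * r) = I k₀ + r ∧ J (k₀ + 2 * r) = I k₀ + m + r) →
  (∀ r : ℕ, r < m → I (k₀ + 2 * r + 1) = I k₀ + r ∧ J (k₀ + 2 * r + 1) = I k₀ + m + r + 1) →
  ∀ (η : ℤ → ℂ) (ζ : ℂ), (∀ k, η (k + ((2 * m - 1 : ℕ) : ℤ)) = η k) →
    (∀ k : ℤ, dt (y (idx m (I k₀) (k + 1)) - y (idx m (I k₀) k)) (η (k + 1) - η k) ≤ 0) →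
    dt (y (I k₀ + m) - y (idx m (I k₀) 0)) (ζ - η 0) ≤ 0 →
    Lst (2 * m - 1) (fun k => y (idx m (I k₀) k)) (y (I k₀ + m)) η ζ ≤ 0

/-- [N5] The stationary star. Proof: `k₀` from `[N1]`, `i₀ = I k₀`, `N = 2m - 1`, `W k = y (idx m i₀ k)`, `p = y (i₀ + m)`, `α = alp m β k₀`, `bm = β (k₀ - 1)`, `bp = β k₀`. `unit`, `unitp`: `[N2]` (`‖Dv‖ = 1`). `rotm`: `Dv k₀ = e^{iβ(k₀-1)} Dv (k₀ - 1)`; `rotp`: `Dv (k₀ + 1) = e^{iβ k₀} Dv k₀`, `Dv (k₀+1) = W 1 - W 0`.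
`rot` for `k ≡ r`, `1 ≤ r < N`: `Dv (k₀ + r + 1) = e^{iβ(k₀+r)} Dv (k₀ + r)` is `(-1)^r (W (r+1) - W r) = e^{iα} (-1)^(r-1) (W r - W (r-1))`. For `r = 0` combine `rotm`, `rotp`. Bounds: `β k < 7π/(4n) ≤ 7π/32`, `β > 0`. `sum`: `α 0 + ∑_{r=1}^{N-1} β (k₀ + r) = ∑_{j=-1}^{N-1} β (k₀ + j)`, `n` consecutive terms, `= π` (`psum_shift`).
`stat`: `[N4]`. Area: `[N3]`. -/
def S_N5 : Prop := ∀ (n m : ℕ) (y : ℤ → ℂ) (I J e : ℤ → ℤ) (β : ℤ → ℝ), n = 2 * m → 3 ≤ m → Opt n y → Stair n y I J e → Ang n y I J β →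
  (SS n e).card = 1 → (∀ k, β k < 7 * Real.pi / (4 * n)) → (∀ k, β k + β (k + 1) ≤ Real.pi / 2) →
  ∃ (W : ℤ → ℂ) (p : ℂ) (α : ℤ → ℝ) (bm bp : ℝ), SD (2 * m - 1) W p α bm bp ∧ St (2 * m - 1) W p = sh n y

/-- [F0] The pendant bisects the angle. Proof: `stat` with `η = 0`, `ζ = ± i (p - W 0)` (`dt (p - W 0) (i (p - W 0)) = 0`): `Lst = (1/2) cr ζ (W 1 - W (-1)) = 0`, so `dt (p - W 0) (W 1 - W (-1)) = 0` (`cr_I_mul`), i.e. `dt (p - W 0) (W 1 - W 0) = dt (p - W 0) (W (-1) - W 0)`, i.e. `cos bp = cos bm`; both in `(0, π)`. -/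
def S_F0 : Prop := ∀ (N : ℕ) (W : ℤ → ℂ) (p : ℂ) (α : ℤ → ℝ) (bm bp : ℝ), 5 ≤ N → SD N W p α bm bp → bm = bp

/-- [FL] The derivative of the area for a variation of one vertex. `η = ξ` at the indices `≡ k`, `0` elsewhere. Proof: shift the sums (`psum_shift`): only the terms with `j ≡ k` and `j ≡ k - 2` are nonzero: `cr ξ (W (k+2)) + cr (W (k-2)) ξ = cr ξ (W (k+2) - W (k-2))`; the correction terms are `cr ξ (p - W 1)` if `k ≡ -1`, `cr ξ (W (-1) - p)` if `k ≡ 1`. -/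
def S_FL : Prop := ∀ (N : ℕ) (W : ℤ → ℂ) (p : ℂ) (k : ℤ) (ξ ζ : ℂ), 5 ≤ N → (∀ k, W (k + N) = W k) →
  Lst N W p (fun j => if (N : ℤ) ∣ j - k then ξ else 0) ζ =
    (cr ξ (W (k + 2) - W (k - 2)) + (if (N : ℤ) ∣ k + 1 then cr ξ (p - W 1) else 0)
      + (if (N : ℤ) ∣ k - 1 then cr ξ (W (-1) - p) else 0) + cr ζ (W 1 - W (-1))) / 2

/-- [F1] Flexing the bond `(k, k+1)`, `k, k+1 ≢ 0`. Proof. `W` periodic, write `E = W (k+1) - W k`. `η = s₁ i (W k - W (k-1))` at `k`, `η = s₂ i (W (k+1) - W (k+2))` at `k+1` (mod `N`), `ζ = 0`, `s₁, s₂` real. All bonds except `(k,k+1)` are fixed to first order; from `rot`: `W k - W (k-1) = -e^{-iα k} E`, `W (k+1) - W (k+2) = e^{iα(k+1)} E`, so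
`dt E (η (k+1) - η k) = s₁ sin α_k - s₂ sin α_{k+1}`. By `[FL]` (linear in `η`) and `rot`: `2 Lst = s₁ P - s₂ Q` with `P = c k + c (k-1) - 1 - cos (α k + α (k+1))`, `Q = c (k+1) + c (k+2) - 1 - cos (α k + α (k+1))`. Details: with `A = W k - W (k-1)`: `W (k+1) - W k = -e^{iα k} A`, `W (k+2) - W (k+1) = e^{i(α k + α(k+1))} A`, `W (k-1) - W (k-2) = -e^{-iα(k-1)} A`,
`cr (i A) (W (k+2) - W (k-2)) = -dt A (..) = cos α k + cos α (k-1) - 1 - cos (α k + α (k+1))`; if `k ≡ 1`, the extra term `cr (iA) (W (-1) - p) = -(cos α 0 - cos bp)` replaces `cos α 0` by `cos bp = c 0` (`[F0]`, `hb = α 0 / 2 = bp`). The same at `k + 1` with `B = W (k+1) - W (k+2)`. `stat`: `s₁ P - s₂ Q ≤ 0` for all real `s₁, s₂` with `s₁ sin α_k ≤ s₂ sin α_{k+1}`.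
Taking `(s₁,s₂) = ±(sin α_{k+1}, sin α_k)` gives the equality, `(-1, 0)` gives `P ≥ 0`, `(0,1)` gives `Q ≥ 0`. -/
def S_F1 : Prop := ∀ (N : ℕ) (W : ℤ → ℂ) (p : ℂ) (α : ℤ → ℝ) (bm bp : ℝ), 5 ≤ N → SD N W p α bm bp →
  ∀ k : ℤ, ¬ ((N : ℤ) ∣ k) → ¬ ((N : ℤ) ∣ k + 1) →
    0 ≤ Real.cos (hb N α k) + Real.cos (hb N α (k - 1)) - 1 - Real.cos (α k + α (k + 1)) ∧
    0 ≤ Real.cos (hb N α (k + 1)) + Real.cos (hb N α (k + 2)) - 1 - Real.cos (α k + α (k + 1)) ∧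
    (Real.cos (hb N α k) + Real.cos (hb N α (k - 1)) - 1 - Real.cos (α k + α (k + 1))) * Real.sin (α (k + 1)) =
      (Real.cos (hb N α (k + 1)) + Real.cos (hb N α (k + 2)) - 1 - Real.cos (α k + α (k + 1))) * Real.sin (α k)

/-- [F2] Flexing the bond `(0, 1)`. Proof. `β₀ = bm = bp = hb N α 0`, `α 0 = 2β₀`. `η = s₁ i (W 0 - W (-1))` at `0` (mod `N`), `ζ` the same vector (so `ζ - η 0 = 0`), `η = s₂ i (W 1 - W 2)` at `1`. Bond `(0,1)`: `dt (W 1 - W 0) (η 1 - η 0) = s₁ sin α_0 - s₂ sin α_1`. `[FL]`: `2 Lst = cr (η 0) (W 2 - W (-2) + W 1 - W (-1)) + cr (η 1) (W 3 - p)`.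
With `A = W 0 - W (-1)`: `W 1 - W 0 = -e^{2iβ₀} A`, `W 2 - W 1 = e^{i(2β₀+α 1)} A`, `W (-1) - W (-2) = -e^{-iα(-1)} A`: first `= s₁ P`, `P = c (-1) - 2 + 2 cos 2β₀ - cos (2β₀ + α 1)`. With `B = W 1 - W 2`: `W 3 - W 2 = e^{iα 2} B`, `W 1 - W 0 = e^{-iα 1} B`, `W 0 - p = -e^{-i(α 1+β₀)} B`: second `= -s₂ Q`, `Q = c 1 + c 2 - 1 - cos (β₀ + α 1)`.
`stat`: `s₁ P ≤ s₂ Q` whenever `s₁ sin α_0 ≤ s₂ sin α_1`; conclude as in `[F1]`. -/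
def S_F2 : Prop := ∀ (N : ℕ) (W : ℤ → ℂ) (p : ℂ) (α : ℤ → ℝ) (bm bp : ℝ), 5 ≤ N → SD N W p α bm bp →
    0 ≤ Real.cos (α (-1)) - 2 + 2 * Real.cos (α 0) - Real.cos (α 0 + α 1) ∧
    0 ≤ Real.cos (α 1) + Real.cos (α 2) - 1 - Real.cos (bp + α 1) ∧
    (Real.cos (α (-1)) - 2 + 2 * Real.cos (α 0) - Real.cos (α 0 + α 1)) * Real.sin (α 1) =
      (Real.cos (α 1) + Real.cos (α 2) - 1 - Real.cos (bp + α 1)) * Real.sin (α 0)

/-- [F3] Flexing the bond `(-1, 0)`: mirror image of `[F2]`. Proof: apply `[F2]` to the mirror image: `W' k = conj (W (-k))`, `p' = conj p`, `α' k = α (-k)`, `bm' = bp`, `bp' = bm`. It satisfies `SD`: `cr (conj a) (conj b) = -cr a b = cr b a`, `dt (conj a) (conj b) = dt a b`, and `Lst N W' p' η' ζ' = Lst N W p η ζ` for `η' k = conj (η (-k))`, `ζ' = conj ζ` (reindex the sum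
`k → -k - 2`, `psum_neg`, `psum_shift`). Or repeat the computation. -/
def S_F3 : Prop := ∀ (N : ℕ) (W : ℤ → ℂ) (p : ℂ) (α : ℤ → ℝ) (bm bp : ℝ), 5 ≤ N → SD N W p α bm bp →
    0 ≤ Real.cos (α 1) - 2 + 2 * Real.cos (α 0) - Real.cos (α 0 + α (-1)) ∧
    0 ≤ Real.cos (α (-1)) + Real.cos (α (-2)) - 1 - Real.cos (bm + α (-1)) ∧
    (Real.cos (α 1) - 2 + 2 * Real.cos (α 0) - Real.cos (α 0 + α (-1))) * Real.sin (α (-1)) =
      (Real.cos (α (-1)) + Real.cos (α (-2)) - 1 - Real.cos (bm + α (-1))) * Real.sin (α 0)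

/-- [F4] The numbers `u k`. Proof: define `u k` by the first equation (`sin α k > 0`, as `0 < α k < π`). Let `s k = sin (hb k)`. Generic bond (`k, k+1 ≢ 0`, so `α k = hb k`, `α (k+1) = hb (k+1)`): with `P, Q` of `[F1]` the right side of the first equation is `s k² + s k s (k+1) - P` (use `cos (α k + α (k+1)) = c k c (k+1) - s k s (k+1)`, `1 - c k² = s k²`), that of the
second one `s (k+1)² + s k s (k+1) - Q`; so `4 u k = s k + s (k+1) - P / s k` and the second equation says `P / s k = Q / s (k+1)`, true by `[F1]`; `P ≥ 0` gives the bound. Bond `k ≡ 0` (by periodicity `k = 0`; `c 0 = cos β₀`, `α 0 = 2β₀`, `β₀ = bp = α 0 / 2`): first right side, `2 + c 0 - c (-1) - (2 + c 0 - c 1) cos 2β₀ = sin 2β₀ (s 1 + s 0) - P`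
with `P` of `[F2]` (`c 0 (1 - cos 2β₀) = s 0 sin 2β₀`), second right side `= s 1² + s 0 s 1 - Q`; so `4 u 0 = s 0 + s 1 - P / sin 2β₀ = s 0 + s 1 - Q / s 1`. Bond `k ≡ -1`: the mirror image with `[F3]`: first right side (`k = -1`) `= s (-1)² + s (-1) s 0 - Q'`, second (`sin α 0`) `= sin 2β₀ (s (-1) + s 0) - P'`. -/
def S_F4 : Prop := ∀ (N : ℕ) (W : ℤ → ℂ) (p : ℂ) (α : ℤ → ℝ) (bm bp : ℝ), 5 ≤ N → SD N W p α bm bp →
  ∃ u : ℤ → ℝ, (∀ k, u (k + N) = u k) ∧ ∀ k,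
    4 * u k * Real.sin (α k) = (2 + Real.cos (hb N α k) - Real.cos (hb N α (k - 1)))
      - (2 + Real.cos (hb N α k) - Real.cos (hb N α (k + 1))) * Real.cos (α k) ∧
    4 * u k * Real.sin (α (k + 1)) = (2 + Real.cos (hb N α (k + 1)) - Real.cos (hb N α (k + 2)))
      - (2 + Real.cos (hb N α (k + 1)) - Real.cos (hb N α k)) * Real.cos (α (k + 1)) ∧
    u k ≤ (Real.sin (hb N α k) + Real.sin (hb N α (k + 1))) / 4

/-- [F5] `u k > 0`. Proof. `c k = cos (hb k) < 1`, all `c > 0`. Generic bond, `c k ≤ c (k+1)`: first equation: `4 u k sin α k = 2 (1 - c k) + c k (c (k+1) - c k) + (c k - c (k-1)) ≥ 2 (1 - c k) + 0 + (c k - 1) = 1 - c k > 0`. If `c (k+1) < c k` use the second one in the same way: `2 (1 - c (k+1)) + c (k+1) (c k - c (k+1)) + (c (k+1) - c (k+2)) ≥ 1 - c (k+1) > 0`.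
Bond `k ≡ 0`: if `c 1 ≤ c 0` the second equation as before (`α 1 = hb 1`). If `c 0 < c 1`: first equation with `α 0 = 2 hb 0`: `(2 + c 0 - c 1)(1 - cos 2β₀) + (c 1 - c (-1)) ≥ (1 + c 0) 2 (1 - c 0)(1 + c 0) + (c 0 - 1) ≥ 2 (1 - c 0) - (1 - c 0) > 0` (`1 - cos 2β₀ = 2 (1 - c 0²)`). Bond `k ≡ -1`: mirror image (`c (-1) ≤ c 0`: first equation; else the second, `sin α 0`). -/
def S_F5 : Prop := ∀ (N : ℕ) (α : ℤ → ℝ) (u : ℤ → ℝ), 5 ≤ N → (∀ k, 0 < α k ∧ α k < Real.pi) → (∀ k, hb N α k < Real.pi / 2) →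
  (∀ k, 4 * u k * Real.sin (α k) = (2 + Real.cos (hb N α k) - Real.cos (hb N α (k - 1)))
      - (2 + Real.cos (hb N α k) - Real.cos (hb N α (k + 1))) * Real.cos (α k)) →
  (∀ k, 4 * u k * Real.sin (α (k + 1)) = (2 + Real.cos (hb N α (k + 1)) - Real.cos (hb N α (k + 2)))
      - (2 + Real.cos (hb N α (k + 1)) - Real.cos (hb N α k)) * Real.cos (α (k + 1))) →
  ∀ k, 0 < u k

/-- [F6] The point `O`. Proof: put `x k = 1/2 + (c k - c (k+1))/4` and `O k = W k + (x k - i u k) E k`, `E k = W (k+1) - W k`. Claim `O (k+1) = O k`: `E (k+1) = -e^{-iα(k+1)} E k`... precisely `rot`: `E (k+1) = W (k+2) - W (k+1) = e^{iα(k+1)} (W k - W (k+1)) = -e^{iα} E k`, `α = α (k+1)`. Need `x k - i u k = 1 - e^{iα} (x (k+1) - i u (k+1))`, i.e. `e^{-iα} (1 - x k + i u k) = x (k+1) - i u (k+1)`: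
real part `(1 - x k) cos α + u k sin α = x (k+1)`: this is the second equation of `[F4]` at `k` (`1 - x k = 1/2 + (c (k+1) - c k)/4`). Imaginary part: `u k cos α - (1 - x k) sin α = -u (k+1)`. From the first equation at `k+1`: `x (k+1) cos α + u (k+1) sin α = 1/2 + (c (k+1) - c k)/4 = 1 - x k`. The two real equations give `sin α · (u k cos α - (1-x k) sin α + u (k+1)) = 0`:
`u k sin α cos α = (x (k+1) - (1 - x k) cos α) cos α`, so `sin α (u k cos α - (1 - x k) sin α) = x (k+1) cos α - (1 - x k) = -u (k+1) sin α`. So all `O k` are equal (induction in both directions); `dt (E k) (O - W k) = x k`, `cr (O - W k) (E k) = u k` (`cr ((x - i u) E) E = u ‖E‖²`). -/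
def S_F6 : Prop := ∀ (N : ℕ) (W : ℤ → ℂ) (p : ℂ) (α : ℤ → ℝ) (bm bp : ℝ) (u : ℤ → ℝ), 5 ≤ N → SD N W p α bm bp →
  (∀ k, 4 * u k * Real.sin (α k) = (2 + Real.cos (hb N α k) - Real.cos (hb N α (k - 1)))
      - (2 + Real.cos (hb N α k) - Real.cos (hb N α (k + 1))) * Real.cos (α k)) →
  (∀ k, 4 * u k * Real.sin (α (k + 1)) = (2 + Real.cos (hb N α (k + 1)) - Real.cos (hb N α (k + 2)))
      - (2 + Real.cos (hb N α (k + 1)) - Real.cos (hb N α k)) * Real.cos (α (k + 1))) →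
  ∃ O : ℂ, IsO N W α O ∧ ∀ k, cr (O - W k) (W (k + 1) - W k) = u k

/-- [F7] First integral. `ρ k = ‖O - W k‖²`. Proof: `‖O - W (k+1)‖² = ‖O - W k‖² - 2 dt (W (k+1) - W k) (O - W k) + 1`, so `ρ k - ρ (k+1) = 2 dt(..) - 1 = (c k - c (k+1))/2`. So `ρ k - c k / 2` does not depend on `k`. And `dt (..) = (1 + ρ k - ρ (k+1))/2`, `dt² + cr² = ρ k` (`cr_sq_add_dt_sq`, unit bond), so `4 u k² = 4 ρ k - (1 + ρ k - ρ (k+1))² = q4 (ρ k) (ρ (k+1))`. -/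
def S_F7 : Prop := ∀ (N : ℕ) (W : ℤ → ℂ) (p : ℂ) (α : ℤ → ℝ) (bm bp : ℝ) (O : ℂ), SD N W p α bm bp → IsO N W α O →
  (∃ J : ℝ, ∀ k, 2 * (‖O - W k‖ ^ 2 - J) = Real.cos (hb N α k)) ∧
  ∀ k, 4 * (cr (O - W k) (W (k + 1) - W k)) ^ 2 = q4 (‖O - W k‖ ^ 2) (‖O - W (k + 1)‖ ^ 2)

/-- [F8] The angle equation. Proof: `ρ k = ‖O - W k‖²`, `E = W (k+1) - W k`, `E' = W (k-1) - W k`. `dt E (O - W k) = (1 + ρ k - ρ (k+1))/2`, `dt E' (O - W k) = (1 + ρ k - ρ (k-1))/2`; `u k = cr (O - W k) E > 0`, and `cr E' (O - W k) = cr (O - W (k-1)) (W k - W (k-1)) = u (k-1) > 0` (expand). So `O ≠ W k`; with `x = phi (ρ k) (ρ (k+1))`, `x' = phi (ρ k) (ρ (k-1))` in `(0, π)`: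
`O - W k = √ρ e^{-ix} E` and `O - W k = √ρ e^{ix'} E'` (real parts: `√ρ cos x = dt`; imaginary parts: `√ρ sin x = u > 0` as both squares agree). `E = e^{iα k} E'` by `rot`, so `e^{i(x + x')} = e^{iα k}`, with `0 < x + x' < 2π` and `0 < α k < 2π`: equal. -/
def S_F8 : Prop := ∀ (N : ℕ) (W : ℤ → ℂ) (p : ℂ) (α : ℤ → ℝ) (bm bp : ℝ) (O : ℂ), SD N W p α bm bp →
  (∀ k, 0 < cr (O - W k) (W (k + 1) - W k)) → (∀ k, α k < 2 * Real.pi) →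
  ∀ k, phi (‖O - W k‖ ^ 2) (‖O - W (k - 1)‖ ^ 2) + phi (‖O - W k‖ ^ 2) (‖O - W (k + 1)‖ ^ 2) = α k

/-- [F10] Area. Proof: `w = W k - O`, `a = W (k-1) - W k`, `b = W (k+1) - W k`. `cr (W (k-1) - O) (W (k+1) - O) = cr (w + a) (w + b) = cr w b + cr a w + cr a b`, `cr w b = -u k`, `cr a w = -u (k-1)` (`u (k-1) = cr (O - W (k-1)) (W k - W (k-1)) = cr w a`), `cr a b = sin α k`. The closed polygon has a translation invariant area, so put the origin at `O` (check: `St N (W - O) (p - O) = St N W p`, the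
linear terms cancel: shift the sums). At the vertex `0`: `cr (W (-1)) p + cr p (W 1)` (relative to `O`) `= -u (-1) - u 0 + sin bm + sin bp`. Sum over `k` (the term `cr (W k) (W (k+2))` belongs to the middle vertex `k + 1`; shift): `2 St = ∑_{k<N} sin α k - sin α 0 + sin bm + sin bp - 2 ∑ u k`, and `wt N k * sin (hb k) = sin α k` for `k ≢ 0`, `= 2 sin (α 0 / 2) = sin bm + sin bp` for `k ≡ 0` (`[F0]`: `bm = bp`). -/
def S_F10 : Prop := ∀ (N : ℕ) (W : ℤ → ℂ) (p : ℂ) (α : ℤ → ℝ) (bm bp : ℝ) (O : ℂ), 5 ≤ N → SD N W p α bm bp →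
  St N W p = (∑ k ∈ Finset.range N, wt N k * Real.sin (hb N α k)) / 2 -
    ∑ k ∈ Finset.range N, cr (O - W k) (W ((k : ℤ) + 1) - W k)

/-- [F11] The star solves the system. Proof: `u` from `[F4]`, positive by `[F5]` (`hb N α k < 7π/32 < π/2`, `hb N α 0 = α 0 / 2 = (bm+bp)/2`; `α k < 7π/16 < π`), `O` from `[F6]`, `ρ k = ‖O - W k‖²`, `J` from `[F7]`. `tri`: `4 u² > 0`. `sml`: `q4 = 4u²` means `ρ + ρ' = 1/2 + (ρ - ρ')²/2 + 2u²`, `ρ - ρ' = (c - c')/2`, so `ρ + ρ' = 1/2 + (c - c')²/8 + 2u²` with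
`u ≤ (s + s')/4 ≤ sin (7π/32)/2 ≤ 0.3175` (`sin (7π/32) ≤ 0.635`; `s ≤ sin(7π/32)`), `|c - c'| ≤ 1 - cos (7π/32) ≤ 0.23`: `ρ + ρ' ≤ 0.5 + 0.0067 + 0.2017 < 3/4`. (Cruder bounds suffice: `s ≤ hb ≤ 0.6873`, `u ≤ 0.3437`, `2u² ≤ 0.2363`; `1 - c ≤ hb²/2 ≤ 0.2362`, `(c-c')²/8 ≤ 0.007`; sum `≤ 0.7433`.) `lo`, `hi`: `2(ρ - J) = c k ∈ [-1,1]`. `arccos (c k) = hb N α k`,
`wt N k * hb N α k = α k`; so `eq` is `[F8]` and `sum` is `∑ α k = π`. Area: `[F10]` with `sin (hb) = √(1 - c²)` and `u k = √(q4)/2` (`[F7]`, `u > 0`). -/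
def S_F11 : Prop := ∀ (N : ℕ) (W : ℤ → ℂ) (p : ℂ) (α : ℤ → ℝ) (bm bp : ℝ), 5 ≤ N → SD N W p α bm bp →
  ∃ (ρ : ℤ → ℝ) (J : ℝ), Sol N ρ J ∧ St N W p = Val N ρ J

end Pool.Agent.Lib.MP_97284c_gt
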